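import Pool.Agent.Helper21_UR.BFac

/-! # UR, module B2 -/

namespace Pool.Agent.Helper21_UR.H97

open Complex MeasureTheory intervalIntegral

theorem sinh4_pos (y : ℂ) (hy : 0 ≤ y.re) :
    ‖4 * sinh (y / 2) ^ 2‖ ≤ Real.exp y.re * ‖y‖ ^ 2 := by
  have e : 4 * sinh (y / 2) ^ 2 = cexp y * (1 - cexp (-y)) ^ 2 := by
    rw [sinh4]
    have h1 : cexp y * cexp (-y) = 1 := by rw [← Complex.exp_add]; simp
    linear_combination (2 - cexp (-y)) * h1
  rw [e, norm_mul, norm_pow, Complex.norm_exp]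
  have h := one_sub_exp_le y hy
  gcongr

theorem sinh4_pos2 (y : ℂ) (hy : 0 ≤ y.re) :
    ‖4 * sinh (y / 2) ^ 2‖ ≤ Real.exp y.re * 4 := by
  have e : 4 * sinh (y / 2) ^ 2 = cexp y * (1 - cexp (-y)) ^ 2 := by
    rw [sinh4]
    have h1 : cexp y * cexp (-y) = 1 := by rw [← Complex.exp_add]; simp
    linear_combination (2 - cexp (-y)) * h1
  rw [e, norm_mul, norm_pow, Complex.norm_exp]
  have h : ‖1 - cexp (-y)‖ ≤ 2 := by
    refine (norm_sub_le _ _).trans ?_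
    rw [norm_one, Complex.norm_exp, Complex.neg_re]
    have : Real.exp (-y.re) ≤ 1 := Real.exp_le_one_iff.2 (by linarith)
    linarith
  have h2 : ‖1 - cexp (-y)‖ ^ 2 ≤ 4 := by nlinarith [norm_nonneg (1 - cexp (-y))]
  gcongr

/-- the terms -/
noncomputable def TB2 (t0 : ℝ) (m : ℕ) (θ : ℝ) (k : ℕ) : ℂ :=
  cexp ((m : ℂ) * tt t0 θ) * sk (tt t0 θ) (-t0) m (k + 2)

theorem TB2_norm (t0 θ : ℝ) (m k : ℕ) (h0 : 0 < t0) (Y : ℝ)
    (hY : ‖4 * sinh ((((-t0 : ℝ) : ℂ) + (((k + 2 : ℕ) : ℂ) + 1) * tt t0 θ) / 2) ^ 2‖ ≤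
      Real.exp ((k + 2) * t0) * Y) (hY0 : 0 ≤ Y) :
    ‖TB2 t0 m θ k‖ ≤ Real.exp (-(m * t0)) ^ (k + 2) *
      (‖1 - cexp (-tt t0 θ) ^ (k + 3)‖ *
      ‖pt (cexp (-tt t0 θ)) (cexp (-tt t0 θ) ^ (2 * (k + 3)))‖ * Y) := by
  unfold TB2 sk
  have hc : (((-t0 : ℝ)) : ℂ) = -((t0 : ℝ) : ℂ) := by push_cast; ring
  rw [norm_mul, norm_mul, norm_mul, norm_mul, norm_mul, norm_pow, norm_neg, norm_one, one_pow,
    one_mul, norm_pow, q_norm, Complex.norm_exp]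
  have hre : ((m : ℂ) * tt t0 θ).re = m * t0 := by
    have := tt_re t0 θ
    simp [this]
  rw [hre]
  have htri : (k + 2) * (k + 2 + 1) / 2 ≥ 0 := Nat.zero_le _
  set D : ℕ := (k + 2 + 1) * (m + 1) + (k + 2) * (k + 2 + 1) / 2 with hD
  have hDge : (k + 2) * m + m + (k + 3) ≤ D := by
    rw [hD]
    have : (k + 2 + 1) * (m + 1) = (k + 2) * m + m + (k + 3) := by ring
    omega
  have e1 : Real.exp (m * t0) * Real.exp (-t0) ^ D * Real.exp ((k + 2) * t0) ≤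
      Real.exp (-(m * t0)) ^ (k + 2) := by
    rw [← Real.exp_nat_mul, ← Real.exp_nat_mul, ← Real.exp_add, ← Real.exp_add]
    refine Real.exp_le_exp.2 ?_
    have h2 : ((k : ℝ) + 2) * m + m + (k + 3) ≤ (D : ℝ) := by exact_mod_cast hDge
    push_cast
    nlinarith
  set A := ‖1 - cexp (-tt t0 θ) ^ (k + 2 + 1)‖ with hA
  set P := ‖pt (cexp (-tt t0 θ)) (cexp (-tt t0 θ) ^ (2 * (k + 2 + 1)))‖ with hP
  calc Real.exp (m * t0) * (Real.exp (-t0) ^ D * A * P *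
        ‖4 * sinh ((((-t0 : ℝ) : ℂ) + (((k + 2 : ℕ) : ℂ) + 1) * tt t0 θ) / 2) ^ 2‖)
      ≤ Real.exp (m * t0) * (Real.exp (-t0) ^ D * A * P * (Real.exp ((k + 2) * t0) * Y)) := by
        gcongr
    _ = (Real.exp (m * t0) * Real.exp (-t0) ^ D * Real.exp ((k + 2) * t0)) * (A * P * Y) := by
        ring
    _ ≤ Real.exp (-(m * t0)) ^ (k + 2) * (A * P * Y) := by gcongr

theorem yk_re (t0 θ : ℝ) (k : ℕ) :
    (((-t0 : ℝ) : ℂ) + (((k + 2 : ℕ) : ℂ) + 1) * tt t0 θ).re = (k + 2) * t0 := by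
  have h1 := tt_re t0 θ
  have h2 := tt_im t0 θ
  rw [Complex.add_re, Complex.mul_re]
  simp [h1, h2]
  ring

theorem yk_norm (t0 v : ℝ) (k : ℕ) :
    ‖((-t0 : ℝ) : ℂ) + (((k + 2 : ℕ) : ℂ) + 1) * tt t0 (t0 * v)‖ ^ 2 =
      t0 ^ 2 * ((k + 2) ^ 2 + (k + 3) ^ 2 * v ^ 2) := by
  have h1 := tt_re t0 (t0 * v)
  have h2 := tt_im t0 (t0 * v)
  rw [← Complex.normSq_eq_norm_sq, Complex.normSq_apply, yk_re]
  have him : (((-t0 : ℝ) : ℂ) + (((k + 2 : ℕ) : ℂ) + 1) * tt t0 (t0 * v)).im =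
      (k + 3) * (t0 * v) := by
    rw [Complex.add_im, Complex.mul_im]
    simp [h1, h2]
    left
    ring
  rw [him]
  ring

/-- bound in terms of `v` -/
theorem TB2_v (t0 v b P : ℝ) (m k : ℕ) (h0 : 0 < t0) (hb : 0 ≤ b) (hvb : 1 + v ^ 2 ≤ b ^ 2)
    (hP : ‖pt (cexp (-tt t0 (t0 * v))) (cexp (-tt t0 (t0 * v)) ^ (2 * (k + 3)))‖ ≤ P) :
    ‖TB2 t0 m (t0 * v) k‖ ≤ Real.exp (-(m * t0)) ^ (k + 2) *
      (t0 ^ 3 * (b * (k + 3) * ((k + 2) ^ 2 + (k + 3) ^ 2 * v ^ 2)) * P) := by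
  have hy := sinh4_pos (((-t0 : ℝ) : ℂ) + (((k + 2 : ℕ) : ℂ) + 1) * tt t0 (t0 * v)) (by
    rw [yk_re]; positivity)
  rw [yk_re, yk_norm] at hy
  refine (TB2_norm t0 (t0 * v) m k h0 _ hy (by positivity)).trans ?_
  have hP0 : 0 ≤ P := (norm_nonneg _).trans hP
  have h1 : ‖1 - cexp (-tt t0 (t0 * v)) ^ (k + 3)‖ ≤ (k + 3) * (t0 * b) := by
    rw [q_pow]
    have h2 := one_sub_exp_le (((k + 3 : ℕ) : ℂ) * tt t0 (t0 * v)) (by
      have h5 := tt_re t0 (t0 * v)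
      have e : (((k + 3 : ℕ) : ℂ) * tt t0 (t0 * v)).re = (k + 3 : ℕ) * t0 := by
        rw [← Complex.ofReal_natCast, Complex.re_ofReal_mul, h5]
      rw [e]; positivity)
    refine h2.trans ?_
    rw [norm_mul, Complex.norm_natCast]
    push_cast
    have := tt_norm t0 v b h0 hb hvb
    gcongr
  calc Real.exp (-(m * t0)) ^ (k + 2) * (‖1 - cexp (-tt t0 (t0 * v)) ^ (k + 3)‖ *
      ‖pt (cexp (-tt t0 (t0 * v))) (cexp (-tt t0 (t0 * v)) ^ (2 * (k + 3)))‖ *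
      (t0 ^ 2 * ((k + 2) ^ 2 + (k + 3) ^ 2 * v ^ 2)))
      ≤ Real.exp (-(m * t0)) ^ (k + 2) * (((k + 3) * (t0 * b)) * P *
      (t0 ^ 2 * ((k + 2) ^ 2 + (k + 3) ^ 2 * v ^ 2))) := by
        gcongr
    _ = _ := by ring

theorem TB2_tail (t0 θ : ℝ) (m k : ℕ) (h0 : 0 < t0) (P : ℝ)
    (hP : ‖pt (cexp (-tt t0 θ)) (cexp (-tt t0 θ) ^ (2 * (k + 3)))‖ ≤ P) :
    ‖TB2 t0 m θ k‖ ≤ Real.exp (-(m * t0)) ^ (k + 2) * (8 * P) := by
  have hy := sinh4_pos2 (((-t0 : ℝ) : ℂ) + (((k + 2 : ℕ) : ℂ) + 1) * tt t0 θ) (by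
    rw [yk_re]; positivity)
  rw [yk_re] at hy
  refine (TB2_norm t0 θ m k h0 _ hy (by positivity)).trans ?_
  have hP0 : 0 ≤ P := (norm_nonneg _).trans hP
  have h1 : ‖1 - cexp (-tt t0 θ) ^ (k + 3)‖ ≤ 2 := by
    refine (norm_sub_le _ _).trans ?_
    rw [norm_one, norm_pow, q_norm]
    have : Real.exp (-t0) ^ (k + 3) ≤ 1 :=
      pow_le_one₀ (Real.exp_pos _).le (Real.exp_le_one_iff.2 (by linarith))
    linarith
  calc Real.exp (-(m * t0)) ^ (k + 2) * (‖1 - cexp (-tt t0 θ) ^ (k + 3)‖ *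
      ‖pt (cexp (-tt t0 θ)) (cexp (-tt t0 θ) ^ (2 * (k + 3)))‖ * 4)
      ≤ Real.exp (-(m * t0)) ^ (k + 2) * (2 * P * 4) := by
        gcongr
    _ = _ := by ring

/-! ### partial theta bounds -/

theorem qpow_norm (t0 θ : ℝ) (n : ℕ) : ‖cexp (-tt t0 θ) ^ n‖ = Real.exp (-(n * t0)) := by
  rw [norm_pow, q_norm, ← Real.exp_nat_mul]
  congr 1
  ring

theorem qpow_arg (t0 v : ℝ) (n : ℕ) (h : |(n : ℝ) * (t0 * v)| ≤ 1) :
    arg (cexp (-tt t0 (t0 * v)) ^ n) = -(n * (t0 * v)) := by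
  rw [q_pow]
  have him : (-((n : ℂ) * tt t0 (t0 * v))).im = -(n * (t0 * v)) := by
    have h2 := tt_im t0 (t0 * v)
    rw [Complex.neg_im]
    have : ((n : ℂ) * tt t0 (t0 * v)).im = n * (t0 * v) := by simp [h2]
    rw [this]
  rw [arg_exp_eq _ (by rw [him, abs_neg]; exact h), him]

/-- refined bound for small exponents -/
theorem ptR (hP : Ptb1Statement) (t0 v : ℝ) (h0 : 0 < t0) (h50 : t0 ≤ 1 / 50)
    (hv : |v| ≤ 3 / 10) (b : ℕ) (hb2 : b ≤ 4) :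
    ‖pt (cexp (-tt t0 (t0 * v))) (cexp (-tt t0 (t0 * v)) ^ (2 * b))‖ ≤
      1 / (2 - (2 * b + 1) * 0.0209) + 1 / 200 := by
  have hv2 : v ^ 2 ≤ 9 / 100 := by rw [← sq_abs]; nlinarith [abs_nonneg v]
  have hbr2 : (b : ℝ) ≤ 4 := by exact_mod_cast hb2
  have hb0 : (0 : ℝ) ≤ b := Nat.cast_nonneg b
  set t : ℂ := tt t0 (t0 * v) with ht
  have htn : ‖t‖ ≤ 0.0209 := (tt_norm t0 v 1.045 h0 (by norm_num) (by nlinarith)).trans (by linarith)
  have htre : t.re = t0 := tt_re _ _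
  have hzn : ‖cexp (-t) ^ (2 * b)‖ ≤ 1 := by
    rw [ht, qpow_norm]
    exact Real.exp_le_one_iff.2 (by rw [neg_nonpos]; positivity)
  have hsm : |((2 * b : ℕ) : ℝ) * (t0 * v)| ≤ 1 / 4 := by
    rw [abs_mul, abs_mul, abs_of_pos h0, abs_of_nonneg (by positivity)]
    have : t0 * |v| ≤ 1 / 50 * (3 / 10) := by gcongr
    push_cast
    nlinarith [abs_nonneg v]
  have harg : |arg (cexp (-t) ^ (2 * b))| ≤ 1 / 4 := by
    rw [ht, qpow_arg t0 v (2 * b) (by linarith), abs_neg]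
    exact hsm
  have h1 := hP t0 v (cexp (-t) ^ (2 * b)) h0 h50 hv hzn harg (cexp (-t)) rfl
  have hq2 : cexp (-t) * cexp (-t) ^ (2 * b) = cexp (-(((2 * b + 1 : ℕ) : ℂ) * t)) := by
    rw [← q_pow, pow_succ]; ring
  rw [hq2] at h1
  set w : ℂ := cexp (-(((2 * b + 1 : ℕ) : ℂ) * t)) with hw
  have hw1 : ‖1 - w‖ ≤ (2 * b + 1) * 0.0209 := by
    have h1 := one_sub_exp_le (((2 * b + 1 : ℕ) : ℂ) * t) (by
      have : (((2 * b + 1 : ℕ) : ℂ) * t).re = (2 * b + 1 : ℕ) * t0 := by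
        rw [← Complex.ofReal_natCast, Complex.re_ofReal_mul, htre]
      rw [this]; positivity)
    refine h1.trans ?_
    rw [norm_mul, Complex.norm_natCast]
    push_cast
    gcongr
  have hw2 : 2 - (2 * b + 1) * 0.0209 ≤ ‖1 + w‖ := by
    have : (2 : ℂ) = (1 + w) + (1 - w) := by ring
    have h3 : ‖(2 : ℂ)‖ ≤ ‖1 + w‖ + ‖1 - w‖ := by
      conv_lhs => rw [this]
      exact norm_add_le _ _
    rw [show ‖(2 : ℂ)‖ = 2 by simp] at h3
    linarith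
  have hpos : 0 < 2 - (2 * (b : ℝ) + 1) * 0.0209 := by nlinarith
  have e : pt (cexp (-t)) (cexp (-t) ^ (2 * b)) =
      1 / (1 + w) + (pt (cexp (-t)) (cexp (-t) ^ (2 * b)) - 1 / (1 + w)) := by ring
  rw [e]
  refine (norm_add_le _ _).trans (add_le_add ?_ h1)
  rw [norm_div, norm_one]
  exact one_div_le_one_div_of_le hpos hw2

/-- crude bound for all exponents -/
theorem ptG (hP2 : Ptb2Statement) (hP3 : Ptb3Statement) (t0 v : ℝ) (h0 : 0 < t0)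
    (h50 : t0 ≤ 1 / 50) (hv : |v| ≤ 3 / 5) (b : ℕ) :
    ‖pt (cexp (-tt t0 (t0 * v))) (cexp (-tt t0 (t0 * v)) ^ (2 * b))‖ ≤ 11 := by
  have hb0 : (0 : ℝ) ≤ b := Nat.cast_nonneg b
  have hzn : ‖cexp (-tt t0 (t0 * v)) ^ (2 * b)‖ = Real.exp (-(2 * b * t0)) := by
    rw [qpow_norm]; push_cast; rfl
  by_cases hs : 2 * b * t0 ≤ 1 / 10
  · have hsm : |((2 * b : ℕ) : ℝ) * (t0 * v)| ≤ 3 / 50 := by
      have e : ((2 * b : ℕ) : ℝ) * (t0 * v) = (2 * b * t0) * v := by push_cast; ring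
      rw [e, abs_mul, abs_of_nonneg (by positivity)]
      calc 2 * b * t0 * |v| ≤ 1 / 10 * (3 / 5) := by gcongr
        _ = 3 / 50 := by norm_num
    have h1 := hP2 t0 v (cexp (-tt t0 (t0 * v)) ^ (2 * b)) h0 h50 hv
      (by rw [hzn]; linarith [Real.one_sub_le_exp_neg (2 * b * t0)])
      (by rw [hzn]; exact Real.exp_le_one_iff.2 (by rw [neg_nonpos]; positivity))
      (by rw [qpow_arg t0 v (2 * b) (by linarith), abs_neg]; linarith)
    linarith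
  · push Not at hs
    have hq1 : ‖cexp (-tt t0 (t0 * v))‖ < 1 := by
      rw [q_norm]; exact Real.exp_lt_one_iff.2 (by linarith)
    have h2 : Real.exp (-(2 * b * t0)) ≤ 10 / 11 := by
      have h3 : Real.exp (-(2 * b * t0)) ≤ Real.exp (-(1 / 10)) := Real.exp_le_exp.2 (by linarith)
      have h4 : Real.exp (-(1 / 10)) ≤ 10 / 11 := by
        rw [Real.exp_neg, inv_le_comm₀ (Real.exp_pos _) (by norm_num)]
        have := Real.add_one_le_exp (1 / 10 : ℝ)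
        norm_num at this ⊢
        linarith
      linarith
    refine (hP3 _ _ hq1 (by rw [hzn]; linarith)).trans ?_
    rw [hzn, div_le_iff₀ (by linarith)]
    linarith

theorem E_le (x : ℝ) (hx : 39 / 10 ≤ x) : Real.exp (-x) ≤ 0.0204 := by
  have h1 : Real.exp (-x) ≤ Real.exp (-(39 / 10)) := Real.exp_le_exp.2 (by linarith)
  refine h1.trans ?_
  rw [Real.exp_neg, inv_le_comm₀ (Real.exp_pos _) (by norm_num)]
  have e : Real.exp (39 / 10) = Real.exp 1 ^ 4 * Real.exp (-(1 / 10)) := by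
    rw [← Real.exp_nat_mul, ← Real.exp_add]
    congr 1
    norm_num
  rw [e]
  have h2 : (2.718 : ℝ) ^ 4 ≤ Real.exp 1 ^ 4 :=
    pow_le_pow_left₀ (by norm_num) (by linarith [Real.exp_one_gt_d9]) 4
  have h3 : (0.9 : ℝ) ≤ Real.exp (-(1 / 10)) := by
    have := Real.add_one_le_exp (-(1 / 10) : ℝ)
    linarith
  have h4 : (2.718 : ℝ) ^ 4 * 0.9 ≤ Real.exp 1 ^ 4 * Real.exp (-(1 / 10)) := by gcongr
  refine le_trans ?_ h4
  norm_num

theorem cube_le (k : ℕ) : ((k : ℝ) + 3) ^ 3 ≤ 27 * 3 ^ k := by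
  induction k with
  | zero => norm_num
  | succ k ih =>
    push_cast
    have h0 : (0 : ℝ) ≤ k := Nat.cast_nonneg k
    have : ((k : ℝ) + 1 + 3) ^ 3 ≤ 3 * (k + 3) ^ 3 := by nlinarith [pow_nonneg h0 2, pow_nonneg h0 3]
    calc ((k : ℝ) + 1 + 3) ^ 3 ≤ 3 * (k + 3) ^ 3 := this
      _ ≤ 3 * (27 * 3 ^ k) := by linarith
      _ = 27 * 3 ^ (k + 1) := by ring

theorem cube_le2 (k : ℕ) : ((k : ℝ) + 5) ^ 3 ≤ 125 * 3 ^ k := by
  induction k with
  | zero => norm_num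
  | succ k ih =>
    push_cast
    have h0 : (0 : ℝ) ≤ k := Nat.cast_nonneg k
    have : ((k : ℝ) + 1 + 5) ^ 3 ≤ 3 * (k + 5) ^ 3 := by nlinarith [pow_nonneg h0 2, pow_nonneg h0 3]
    calc ((k : ℝ) + 1 + 5) ^ 3 ≤ 3 * (k + 5) ^ 3 := this
      _ ≤ 3 * (125 * 3 ^ k) := by linarith
      _ = 125 * 3 ^ (k + 1) := by ring

/-- sum of the bounds -/
theorem sum_bound (f : ℕ → ℂ) (E A r : ℝ) (hE0 : 0 ≤ E) (hEr : E ≤ r) (hr : 3 * r ≤ 0.0612)
    (hA : 0 ≤ A) (j : ℕ) (hf : ∀ k, ‖f k‖ ≤ E ^ (k + j + 1) * (A * 3 ^ k)) :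
    ‖∑' k, f k‖ ≤ E * (r ^ j * A * 1.066) := by
  have hr0 : 0 ≤ r := hE0.trans hEr
  have hg : HasSum (fun k : ℕ => E * (r ^ j * A) * (3 * r) ^ k) (E * (r ^ j * A) * (1 - 3 * r)⁻¹) :=
    (hasSum_geometric_of_lt_one (by positivity) (by linarith)).mul_left _
  have h1 : ∀ k, ‖f k‖ ≤ E * (r ^ j * A) * (3 * r) ^ k := by
    intro k
    refine (hf k).trans ?_
    have e : E ^ (k + j + 1) = E * E ^ j * E ^ k := by ring
    rw [e, mul_pow]
    have a1 : E ^ j ≤ r ^ j := pow_le_pow_left₀ hE0 hEr j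
    have a2 : E ^ k ≤ r ^ k := pow_le_pow_left₀ hE0 hEr k
    calc E * E ^ j * E ^ k * (A * 3 ^ k) ≤ E * r ^ j * r ^ k * (A * 3 ^ k) := by gcongr
      _ = _ := by ring
  refine (tsum_of_norm_bounded hg h1).trans ?_
  have h2 : (1 - 3 * r)⁻¹ ≤ 1.066 := by
    rw [inv_le_comm₀ (by linarith) (by norm_num)]
    norm_num
    linarith
  calc E * (r ^ j * A) * (1 - 3 * r)⁻¹ ≤ E * (r ^ j * A) * 1.066 := by gcongr
    _ = _ := by ring

set_option maxHeartbeats 2000000 in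
theorem b2 (hE : EtaStatement) (hM : MinorStatement) (hP1 : Ptb1Statement)
    (hP2 : Ptb2Statement) (hP3 : Ptb3Statement) (hLm : LapmStatement)
    (hC : ContStatement) : B2Statement := by
  intro t0 m N h0 h50 ht hx
  have hpi := Real.pi_gt_three
  have hz := zz_lower t0 h0 h50
  have hz0 : 0 < zz t0 := by linarith
  have hRt := Rt_pos t0 h0
  have hW := W0_pos t0 h0
  set E := Real.exp (-(m * t0)) with hEdef
  have hE0 : 0 < E := Real.exp_pos _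
  have hEr : E ≤ 0.0204 := E_le _ hx
  set R : ℝ → ℂ := fun θ => cexp ((m : ℂ) * tt t0 θ) * ∑' k : ℕ, sk (tt t0 θ) (-t0) m (k + 2)
    with hR
  set H : ℝ → ℂ := fun θ => (QP (cexp (-tt t0 θ)))⁻¹ ^ 2 * cexp ((N : ℂ) * tt t0 θ) * R θ with hH
  have hRs : ∀ θ, R θ = ∑' k : ℕ, TB2 t0 m θ k := by
    intro θ
    rw [hR]
    simp only
    rw [← tsum_mul_left]
    rfl
  have hsum : ∀ θ, Summable (TB2 t0 m θ) := by
    intro θ
    have h1 := hC.2.2.2.2 (tt t0 θ) (-t0) (by rw [tt_re]; exact h0) m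
    have h2 : Summable (fun k : ℕ => sk (tt t0 θ) (-t0) m k) := Summable.of_norm h1
    have h3 := (summable_nat_add_iff 2).2 h2
    exact h3.mul_left _
  have hHc : Continuous H := by
    have h1 := hC.2.2.2.1 t0 (-t0) h0 m 2
    have h2 : Continuous fun θ : ℝ => cexp ((N : ℂ) * tt t0 θ) * cexp ((m : ℂ) * tt t0 θ) := by
      unfold tt; fun_prop
    refine (h2.mul h1).congr fun θ => ?_
    rw [hH, hR]
    simp only [Pi.mul_apply]
    ring
  have key := bcore hE hM t0 N h0 h50 ht H R (fun _ => 0) (fun _ => 0.386 * E) (40 * E) (50 * E)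
    (8 * E) hHc continuous_const continuous_const (fun θ => rfl) ?_ ?_ ?_ ?_ (by positivity)
    (by positivity) (by positivity)
  · have hS : S2i t0 (-t0) m (N + m) = 1 / (2 * (Real.pi : ℂ)) * ∫ θ in (-Real.pi)..Real.pi, H θ := by
      unfold S2i
      congr 1
      refine intervalIntegral.integral_congr (fun θ _ => ?_)
      rw [hH, hR]
      simp only
      rw [show (((N + m : ℕ) : ℂ) * tt t0 θ) = (N : ℂ) * tt t0 θ + (m : ℂ) * tt t0 θ by
        push_cast; ring, Complex.exp_add]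
      ring
    rw [← hS] at key
    simp only [mul_zero, intervalIntegral.integral_zero, sub_zero, norm_zero, add_zero] at key
    refine key.trans ?_
    have hl := hLm (zz t0) (by linarith) 0 1.05 (Or.inl rfl)
    simp only [pow_zero, mul_one] at hl
    have e1 : ∫ v in (-(3 / 10 : ℝ))..(3 / 10), KK (zz t0) v * (1.047 * (0.386 * E)) =
        (∫ v in (-(3 / 10 : ℝ))..(3 / 10), KK (zz t0) v) * (1.047 * (0.386 * E)) :=
      intervalIntegral.integral_mul_const _ _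
    rw [e1]
    set Rt := Real.sqrt (2 * Real.pi / zz t0) with hRtd
    have e2 : Rt⁻¹ * ((∫ v in (-(3 / 10 : ℝ))..(3 / 10), KK (zz t0) v) * (1.047 * (0.386 * E))) ≤
        1.05 * (1.047 * (0.386 * E)) := by
      rw [← mul_assoc]
      apply mul_le_mul_of_nonneg_right _ (by positivity)
      rw [inv_mul_le_iff₀ hRt]
      linarith
    have e3 : (0.003 * (40 * E) + 0.000001 * (50 * E) + 0.000001 * (8 * E)) / zz t0 ≤ 0.001 * E := by
      rw [div_le_iff₀ hz0]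
      nlinarith
    have e4 : W0 t0 * (Rt⁻¹ * ((∫ v in (-(3 / 10 : ℝ))..(3 / 10), KK (zz t0) v) *
        (1.047 * (0.386 * E))) +
        (0.003 * (40 * E) + 0.000001 * (50 * E) + 0.000001 * (8 * E)) / zz t0) ≤
        W0 t0 * (1.05 * (1.047 * (0.386 * E)) + 0.001 * E) :=
      mul_le_mul_of_nonneg_left (add_le_add e2 e3) hW.le
    refine e4.trans ?_
    have : 0 < W0 t0 * E := by positivity
    nlinarith
  · -- refined region
    intro v hv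
    have hv2 : v ^ 2 ≤ 9 / 100 := by rw [← sq_abs]; nlinarith [abs_nonneg v]
    rw [mul_zero, sub_zero, hRs]
    have hs := hsum (t0 * v)
    rw [← hs.sum_add_tsum_nat_add 2]
    simp only [Finset.sum_range_succ, Finset.sum_range_zero, zero_add]
    have hp0 := ptR hP1 t0 v h0 h50 hv 3 (by norm_num)
    have hp1 := ptR hP1 t0 v h0 h50 hv 4 (by norm_num)
    have hp0' : ‖pt (cexp (-tt t0 (t0 * v))) (cexp (-tt t0 (t0 * v)) ^ (2 * (0 + 3)))‖ ≤ 0.5446 := by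
      refine hp0.trans ?_
      norm_num
    have hp1' : ‖pt (cexp (-tt t0 (t0 * v))) (cexp (-tt t0 (t0 * v)) ^ (2 * (1 + 3)))‖ ≤ 0.557 := by
      refine hp1.trans ?_
      norm_num
    have b0 := TB2_v t0 v 1.045 _ m 0 h0 (by norm_num) (by nlinarith) hp0'
    have b1 := TB2_v t0 v 1.045 _ m 1 h0 (by norm_num) (by nlinarith) hp1'
    have ht3 : 0 < t0 ^ 3 := by positivity
    have b2 := sum_bound (fun k => TB2 t0 m (t0 * v) (k + 2)) E
      (t0 ^ 3 * (1.045 * 1.09 * 125 * 11)) 0.0204 hE0.le hEr (by norm_num) (by positivity) 3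
      (fun k => by
        have h1 := TB2_v t0 v 1.045 _ m (k + 2) h0 (by norm_num) (by nlinarith)
          (ptG hP2 hP3 t0 v h0 h50 (by linarith) (k + 2 + 3))
        refine h1.trans ?_
        rw [show k + 2 + 2 = k + 3 + 1 by ring]
        refine mul_le_mul_of_nonneg_left ?_ (by positivity)
        have hk0 : (0 : ℝ) ≤ k := Nat.cast_nonneg k
        have hc := cube_le2 k
        push_cast
        have h2 : ((k : ℝ) + 2 + 3) * ((k + 2 + 2) ^ 2 + (k + 2 + 3) ^ 2 * v ^ 2) ≤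
            1.09 * ((k : ℝ) + 5) ^ 3 := by
          have h3 : ((k : ℝ) + 2 + 2) ^ 2 + (k + 2 + 3) ^ 2 * v ^ 2 ≤ 1.09 * ((k : ℝ) + 5) ^ 2 := by
            nlinarith [sq_nonneg ((k : ℝ) + 5)]
          calc ((k : ℝ) + 2 + 3) * ((k + 2 + 2) ^ 2 + (k + 2 + 3) ^ 2 * v ^ 2) ≤
                ((k : ℝ) + 2 + 3) * (1.09 * ((k : ℝ) + 5) ^ 2) := by gcongr
            _ = 1.09 * ((k : ℝ) + 5) ^ 3 := by ring
        calc t0 ^ 3 * (1.045 * ((k : ℝ) + 2 + 3) * ((k + 2 + 2) ^ 2 + (k + 2 + 3) ^ 2 * v ^ 2)) * 11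
            = t0 ^ 3 * 1.045 * 11 *
              (((k : ℝ) + 2 + 3) * ((k + 2 + 2) ^ 2 + (k + 2 + 3) ^ 2 * v ^ 2)) := by ring
          _ ≤ t0 ^ 3 * 1.045 * 11 * (1.09 * (125 * 3 ^ k)) := by
              apply mul_le_mul_of_nonneg_left _ (by positivity)
              linarith
          _ = _ := by ring)
    rw [← hEdef] at b0 b1
    have n1 := (norm_add_le (TB2 t0 m (t0 * v) 0 + TB2 t0 m (t0 * v) 1)
      (∑' k : ℕ, TB2 t0 m (t0 * v) (k + 2)))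
    have n2 := norm_add_le (TB2 t0 m (t0 * v) 0) (TB2 t0 m (t0 * v) 1)
    have c0 : ‖TB2 t0 m (t0 * v) 0‖ ≤ t0 ^ 3 * E * 0.1677 := by
      refine b0.trans ?_
      have e : E ^ (0 + 2) * (t0 ^ 3 * (1.045 * (((0 : ℕ) : ℝ) + 3) *
          ((((0 : ℕ) : ℝ) + 2) ^ 2 + (((0 : ℕ) : ℝ) + 3) ^ 2 * v ^ 2)) * 0.5446) =
          t0 ^ 3 * E * (E * (1.045 * 3 * (4 + 9 * v ^ 2) * 0.5446)) := by
        push_cast; ring
      rw [e]
      apply mul_le_mul_of_nonneg_left _ (by positivity)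
      calc E * (1.045 * 3 * (4 + 9 * v ^ 2) * 0.5446) ≤
          0.0204 * (1.045 * 3 * (4 + 9 * (9 / 100)) * 0.5446) := by gcongr
        _ ≤ 0.1677 := by norm_num
    have c1 : ‖TB2 t0 m (t0 * v) 1‖ ≤ t0 ^ 3 * E * 0.0102 := by
      refine b1.trans ?_
      have e : E ^ (1 + 2) * (t0 ^ 3 * (1.045 * (((1 : ℕ) : ℝ) + 3) *
          ((((1 : ℕ) : ℝ) + 2) ^ 2 + (((1 : ℕ) : ℝ) + 3) ^ 2 * v ^ 2)) * 0.557) =
          t0 ^ 3 * E * (E ^ 2 * (1.045 * 4 * (9 + 16 * v ^ 2) * 0.557)) := by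
        push_cast; ring
      rw [e]
      apply mul_le_mul_of_nonneg_left _ (by positivity)
      calc E ^ 2 * (1.045 * 4 * (9 + 16 * v ^ 2) * 0.557) ≤
          0.0204 ^ 2 * (1.045 * 4 * (9 + 16 * (9 / 100)) * 0.557) := by gcongr
        _ ≤ 0.0102 := by norm_num
    have c2 : ‖∑' k : ℕ, TB2 t0 m (t0 * v) (k + 2)‖ ≤ t0 ^ 3 * E * 0.0143 := by
      refine b2.trans ?_
      have e : E * (0.0204 ^ 3 * (t0 ^ 3 * (1.045 * 1.09 * 125 * 11)) * 1.066) =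
          t0 ^ 3 * E * (0.0204 ^ 3 * (1.045 * 1.09 * 125 * 11) * 1.066) := by ring
      rw [e]
      apply mul_le_mul_of_nonneg_left _ (by positivity)
      norm_num
    have h9 : 0 < t0 ^ 3 * E := by positivity
    have e9 : t0 ^ 3 / 2 * (0.386 * E) = t0 ^ 3 * E * 0.193 := by ring
    have e8 : t0 ^ 3 * E * 0.1677 + t0 ^ 3 * E * 0.0102 + t0 ^ 3 * E * 0.0143 ≤
        t0 ^ 3 * E * 0.193 := by linarith
    linarith
  · -- middle region
    intro v hv1 hv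
    have hv2 : v ^ 2 ≤ 9 / 25 := by rw [← sq_abs]; nlinarith [abs_nonneg v]
    rw [hRs]
    have b2 := sum_bound (TB2 t0 m (t0 * v)) E (t0 ^ 3 * (1.17 * 1.36 * 27 * 11)) 0.0204 hE0.le hEr
      (by norm_num) (by positivity) 1
      (fun k => by
        have h1 := TB2_v t0 v 1.17 _ m k h0 (by norm_num) (by nlinarith)
          (ptG hP2 hP3 t0 v h0 h50 hv (k + 3))
        refine h1.trans ?_
        refine mul_le_mul_of_nonneg_left ?_ (by positivity)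
        have hk0 : (0 : ℝ) ≤ k := Nat.cast_nonneg k
        have hc := cube_le k
        have h2 : ((k : ℝ) + 3) * ((k + 2) ^ 2 + (k + 3) ^ 2 * v ^ 2) ≤ 1.36 * ((k : ℝ) + 3) ^ 3 := by
          have h3 : ((k : ℝ) + 2) ^ 2 + (k + 3) ^ 2 * v ^ 2 ≤ 1.36 * ((k : ℝ) + 3) ^ 2 := by
            nlinarith [sq_nonneg ((k : ℝ) + 3)]
          calc ((k : ℝ) + 3) * ((k + 2) ^ 2 + (k + 3) ^ 2 * v ^ 2) ≤
                ((k : ℝ) + 3) * (1.36 * ((k : ℝ) + 3) ^ 2) := by gcongr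
            _ = 1.36 * ((k : ℝ) + 3) ^ 3 := by ring
        calc t0 ^ 3 * (1.17 * ((k : ℝ) + 3) * ((k + 2) ^ 2 + (k + 3) ^ 2 * v ^ 2)) * 11
            = t0 ^ 3 * 1.17 * 11 * (((k : ℝ) + 3) * ((k + 2) ^ 2 + (k + 3) ^ 2 * v ^ 2)) := by ring
          _ ≤ t0 ^ 3 * 1.17 * 11 * (1.36 * (27 * 3 ^ k)) := by
              apply mul_le_mul_of_nonneg_left _ (by positivity)
              linarith
          _ = _ := by ring)
    refine b2.trans ?_
    have e1 : E * (0.0204 ^ 1 * (t0 ^ 3 * (1.17 * 1.36 * 27 * 11)) * 1.066) =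
        (t0 ^ 3 * E) * (0.0204 * (1.17 * 1.36 * 27 * 11) * 1.066) := by ring
    have e2 : t0 ^ 3 / 2 * (40 * E) = (t0 ^ 3 * E) * 20 := by ring
    rw [e1, e2]
    apply mul_le_mul_of_nonneg_left _ (by positivity)
    norm_num
  · intro v hv1 hv
    have hv2 : v ^ 2 ≤ 9 := by rw [← sq_abs]; nlinarith [abs_nonneg v]
    rw [hRs]
    have b2 := sum_bound (TB2 t0 m (t0 * v)) E (t0 ^ 3 * (3.17 * 10 * 27 * (1 / t0))) 0.0204 hE0.le
      hEr (by norm_num) (by positivity) 1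
      (fun k => by
        have h1 := TB2_v t0 v 3.17 _ m k h0 (by norm_num) (by nlinarith)
          (ptB hP3 t0 (t0 * v) h0 h50 (k + 3) (by omega))
        refine h1.trans ?_
        refine mul_le_mul_of_nonneg_left ?_ (by positivity)
        have hk0 : (0 : ℝ) ≤ k := Nat.cast_nonneg k
        have hc := cube_le k
        have h2 : ((k : ℝ) + 3) * ((k + 2) ^ 2 + (k + 3) ^ 2 * v ^ 2) ≤ 10 * ((k : ℝ) + 3) ^ 3 := by
          have h3 : ((k : ℝ) + 2) ^ 2 + (k + 3) ^ 2 * v ^ 2 ≤ 10 * ((k : ℝ) + 3) ^ 2 := by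
            nlinarith [sq_nonneg ((k : ℝ) + 3)]
          calc ((k : ℝ) + 3) * ((k + 2) ^ 2 + (k + 3) ^ 2 * v ^ 2) ≤
                ((k : ℝ) + 3) * (10 * ((k : ℝ) + 3) ^ 2) := by gcongr
            _ = 10 * ((k : ℝ) + 3) ^ 3 := by ring
        calc t0 ^ 3 * (3.17 * ((k : ℝ) + 3) * ((k + 2) ^ 2 + (k + 3) ^ 2 * v ^ 2)) * (1 / t0)
            = t0 ^ 3 * 3.17 * (1 / t0) *
              (((k : ℝ) + 3) * ((k + 2) ^ 2 + (k + 3) ^ 2 * v ^ 2)) := by ring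
          _ ≤ t0 ^ 3 * 3.17 * (1 / t0) * (10 * (27 * 3 ^ k)) := by
              apply mul_le_mul_of_nonneg_left _ (by positivity)
              linarith
          _ = _ := by ring)
    refine b2.trans ?_
    have e1 : E * (0.0204 ^ 1 * (t0 ^ 3 * (3.17 * 10 * 27 * (1 / t0))) * 1.066) =
        (t0 ^ 3 / 2 * (E / t0)) * (0.0204 * (3.17 * 10 * 27) * 1.066 * 2) := by ring
    have e2 : t0 ^ 3 / 2 * (50 * E / t0) = (t0 ^ 3 / 2 * (E / t0)) * 50 := by ring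
    rw [e1, e2]
    apply mul_le_mul_of_nonneg_left _ (by positivity)
    norm_num
  · intro θ hθ1 hθ
    rw [hRs]
    have b2 := sum_bound (TB2 t0 m θ) E (8 * (1 / t0)) 0.0204 hE0.le
      hEr (by norm_num) (by positivity) 1
      (fun k => by
        have h1 := TB2_tail t0 θ m k h0 _ (ptB hP3 t0 θ h0 h50 (k + 3) (by omega))
        refine h1.trans ?_
        refine mul_le_mul_of_nonneg_left ?_ (by positivity)
        have h3 : (1 : ℝ) ≤ 3 ^ k := one_le_pow₀ (by norm_num)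
        have h4 : 0 < 8 * (1 / t0) := by positivity
        nlinarith)
    refine b2.trans ?_
    have e1 : E * (0.0204 ^ 1 * (8 * (1 / t0)) * 1.066) = (8 * E / t0) * (0.0204 * 1.066) := by ring
    rw [e1]
    have : 0 < 8 * E / t0 := by positivity
    nlinarith

end Pool.Agent.Helper21_UR.H97
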