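import Pool.Agent.Helper97_UR.THETA

/-! # UR, module FORM -/

namespace Pool.Agent.Helper21_UR.H97

open Complex Filter Topology

theorem exp_part {t0 κ v : ℝ} {m n : ℕ} (h0 : 0 < t0) (htie : Tie κ t0 m n) (t : ℂ)
    (ht : t = tt t0 (t0 * v)) :
    cexp ((n : ℂ) * t - (κ : ℂ) * m * t + ((Real.pi : ℂ) ^ 2 / (3 * t) - t / 12)) =
      Real.exp (zz t0) * KK (zz t0) v * cexp (I * psi (zz t0) v) := by
  have hpi : (Real.pi : ℂ) ≠ 0 := by exact_mod_cast Real.pi_ne_zero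
  have h0' : (t0 : ℂ) ≠ 0 := by exact_mod_cast h0.ne'
  have htr : 0 < t.re := by rw [ht, tt_re]; exact h0
  have ht0 : t ≠ 0 := by
    intro h; rw [h] at htr; simp at htr
  have h1 : (1 + (v : ℂ) * I) ≠ 0 := by
    intro h
    apply ht0
    rw [ht, tt_eq, h, mul_zero]
  have h1' : (1 + I * (v : ℂ)) ≠ 0 := by rw [mul_comm]; exact h1
  have hv2 : (1 + (v : ℂ) ^ 2) ≠ 0 := by
    have : (0 : ℝ) < 1 + v ^ 2 := by positivity
    exact_mod_cast this.ne'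
  have htieC : 3 * (t0 : ℂ) ^ 2 * ((n : ℂ) - κ * m - 1 / 12) = (Real.pi : ℂ) ^ 2 := by
    unfold Tie at htie
    have h5 := congrArg (fun x : ℝ => (x : ℂ)) htie
    push_cast at h5
    exact h5
  unfold KK psi zz
  rw [Complex.ofReal_exp, Complex.ofReal_exp, ← Complex.exp_add, ← Complex.exp_add]
  congr 1
  have e1 : (n : ℂ) * t - (κ : ℂ) * m * t + ((Real.pi : ℂ) ^ 2 / (3 * t) - t / 12) =
      (3 * (t0 : ℂ) ^ 2 * ((n : ℂ) - κ * m - 1 / 12)) / (3 * (t0 : ℂ) ^ 2) * t +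
        (Real.pi : ℂ) ^ 2 / (3 * t) := by
    field_simp
    ring
  rw [e1, htieC, ht, tt_eq]
  push_cast
  have e2 : (Real.pi : ℂ) ^ 2 / (3 * ((t0 : ℂ) * (1 + (v : ℂ) * I))) =
      (Real.pi : ℂ) ^ 2 * (1 - (v : ℂ) * I) / (3 * t0 * (1 + (v : ℂ) ^ 2)) := by
    field_simp
    linear_combination (v : ℂ) ^ 2 * Complex.I_sq
  rw [e2]
  field_simp
  ring

theorem form (hTH : ThetaStatement) : FormStatement := by
  intro κ t0 ch v s m n h0 h1 hκ hv hs htie t w y ht hw hy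
  have hpi : (Real.pi : ℂ) ≠ 0 := by exact_mod_cast Real.pi_ne_zero
  have hw2 : w = ww κ t (t0 * s) := by
    rw [hw, ht, tt_eq]
    unfold ww sg
    push_cast
    linear_combination ((t0 : ℂ) * κ * v) * Complex.I_sq
  obtain ⟨ε, hε, hC⟩ := hTH t0 v (t0 * s) κ h0 h1 hv hs hκ t w ht hw2
  refine ⟨ε, hε, ?_⟩
  have hy2 : ((ch * t0 : ℝ) : ℂ) + I * ww κ t (t0 * s) = y := by
    rw [hy, ht, tt_eq]
    unfold ww bt
    push_cast
    linear_combination (-((t0 : ℂ) * κ * (1 + v * I))) * Complex.I_sq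
  have hsh := (sinh_shift hκ ((Real.pi : ℂ) * ((t0 * s / t0 : ℝ) : ℂ) / (1 + (v : ℂ) * I))).2
  have hpw := pi_w_div (v := v) (φ := t0 * s) (κ := κ) h0
  rw [← ht, ← hw2] at hpw
  rw [← hpw] at hsh
  have hss : t0 * s / t0 = s := by field_simp
  rw [hss] at hsh
  unfold FF
  rw [hy2, ← hw2, hC, hsh]
  have e := exp_part h0 htie t ht
  have hvs : vs κ ≠ 0 := by
    unfold vs
    split_ifs
    · exact Complex.I_ne_zero
    · exact neg_ne_zero.2 Complex.I_ne_zero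
  have e1 : cexp ((Real.pi : ℂ) ^ 2 / (3 * t) - t / 12 + w ^ 2 / (2 * t)) =
      cexp ((Real.pi : ℂ) ^ 2 / (3 * t) - t / 12) * cexp (w ^ 2 / (2 * t)) := Complex.exp_add _ _
  have e2 : cexp (-((κ : ℂ) * m * t) - I * m * ((t0 * s : ℝ) : ℂ)) =
      cexp (-((κ : ℂ) * m * t)) * cexp (-(I * ((m * t0 : ℝ) : ℂ) * s)) := by
    rw [← Complex.exp_add]
    congr 1
    push_cast
    ring
  have e3 : cexp ((n : ℂ) * t) * cexp (-((κ : ℂ) * m * t)) *
      cexp ((Real.pi : ℂ) ^ 2 / (3 * t) - t / 12) =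
      Real.exp (zz t0) * KK (zz t0) v * cexp (I * psi (zz t0) v) := by
    rw [← e, ← Complex.exp_add, ← Complex.exp_add]
    congr 1
  rw [e1, e2, ← e3]
  set cc := cosh ((Real.pi : ℂ) * (s : ℂ) / (1 + (v : ℂ) * I)) with hcc
  rw [div_eq_mul_inv, mul_inv, inv_inv]
  push_cast
  ring

end Pool.Agent.Helper21_UR.H97
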