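import Pool.Agent.Helper97_UR.THETA

/-! # UR, module MINOR -/

namespace Pool.Agent.Helper21_UR.H97

open Complex Filter Topology

set_option maxHeartbeats 1000000

theorem norm_one_sub_ge {x : ℂ} (hx : ‖x‖ < 1) :
    (1 - ‖x‖) * Real.exp (‖x‖ - x.re) ≤ ‖1 - x‖ := by
  have h1 := Complex.hasSum_taylorSeries_neg_log hx
  have hx' : ‖((‖x‖ : ℝ) : ℂ)‖ < 1 := by
    rw [Complex.norm_real, Real.norm_of_nonneg (norm_nonneg _)]; exact hx
  have h2 := Complex.hasSum_taylorSeries_neg_log hx'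
  have h3 := Complex.hasSum_re (h2.sub h1)
  have h4 := le_hasSum h3 1 (by
    intro n _
    rw [Complex.sub_re]
    have e1 : (((‖x‖ : ℝ) : ℂ) ^ n / (n : ℂ)).re = ‖x‖ ^ n / n := by
      have : (((‖x‖ : ℝ) : ℂ) ^ n / (n : ℂ)) = ((‖x‖ ^ n / n : ℝ) : ℂ) := by push_cast; ring
      rw [this, Complex.ofReal_re]
    have e2 : (x ^ n / (n : ℂ)).re ≤ ‖x‖ ^ n / n := by
      refine (Complex.re_le_norm _).trans (le_of_eq ?_)
      rw [norm_div, norm_pow, Complex.norm_natCast]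
    rw [e1]
    linarith)
  have e3 : (((‖x‖ : ℝ) : ℂ) ^ 1 / ((1 : ℕ) : ℂ) - x ^ 1 / ((1 : ℕ) : ℂ)).re = ‖x‖ - x.re := by
    simp
  rw [e3, Complex.sub_re, Complex.neg_re, Complex.neg_re, Complex.log_re, Complex.log_re] at h4
  have h5 : ‖(1 : ℂ) - ((‖x‖ : ℝ) : ℂ)‖ = 1 - ‖x‖ := by
    have : (1 : ℂ) - ((‖x‖ : ℝ) : ℂ) = ((1 - ‖x‖ : ℝ) : ℂ) := by push_cast; ring
    rw [this, Complex.norm_real, Real.norm_of_nonneg (by linarith)]
  rw [h5] at h4
  have hne : 1 - x ≠ 0 := by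
    intro h
    have : x = 1 := by linear_combination -h
    rw [this, norm_one] at hx
    exact lt_irrefl _ hx
  have h6 : 0 < ‖1 - x‖ := norm_pos_iff.2 hne
  have h7 : 0 < 1 - ‖x‖ := by linarith
  have h8 : Real.log (1 - ‖x‖) + (‖x‖ - x.re) ≤ Real.log ‖1 - x‖ := by linarith
  have h9 := Real.exp_le_exp.2 h8
  rw [Real.exp_add, Real.exp_log h7, Real.exp_log h6] at h9
  exact h9

theorem geom_sum (q y : ℂ) (hq : ‖q‖ < 1) :
    Tendsto (fun N : ℕ => ∑ j ∈ Finset.range N, y * q ^ (j + 1)) atTop (𝓝 (y * q / (1 - q))) := by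
  have h := ((hasSum_geometric_of_norm_lt_one hq).mul_left (y * q)).tendsto_sum_nat
  rw [← div_eq_mul_inv] at h
  refine h.congr (fun N => Finset.sum_congr rfl (fun j _ => ?_))
  ring

theorem PP_lower (q y : ℂ) (hq : ‖q‖ < 1) (hy : ‖y * q‖ < 1) :
    ‖PP ((‖q‖ : ℝ) : ℂ) ((‖y‖ : ℝ) : ℂ)‖ *
      Real.exp (‖y‖ * ‖q‖ / (1 - ‖q‖) - (y * q / (1 - q)).re) ≤ ‖PP q y‖ := by
  have hq' : ‖((‖q‖ : ℝ) : ℂ)‖ < 1 := by
    rw [Complex.norm_real, Real.norm_of_nonneg (norm_nonneg _)]; exact hq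
  have ht1 := (PP_tendsto q y hq).norm
  have ht2 := (PP_tendsto ((‖q‖ : ℝ) : ℂ) ((‖y‖ : ℝ) : ℂ) hq').norm
  have hg1 : Tendsto (fun N : ℕ => ∑ j ∈ Finset.range N, ‖y‖ * ‖q‖ ^ (j + 1)) atTop
      (𝓝 (‖y‖ * ‖q‖ / (1 - ‖q‖))) := by
    have h := ((hasSum_geometric_of_lt_one (norm_nonneg q) hq).mul_left
      (‖y‖ * ‖q‖)).tendsto_sum_nat
    rw [← div_eq_mul_inv] at h
    refine h.congr (fun N => Finset.sum_congr rfl (fun j _ => ?_))
    ring
  have hg2 : Tendsto (fun N : ℕ => (∑ j ∈ Finset.range N, y * q ^ (j + 1)).re) atTop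
      (𝓝 (y * q / (1 - q)).re) :=
    (Complex.continuous_re.tendsto _).comp (geom_sum q y hq)
  refine le_of_tendsto_of_tendsto' (ht2.mul ((Real.continuous_exp.tendsto _).comp
    (hg1.sub hg2))) ht1 (fun N => ?_)
  simp only [Function.comp_apply]
  rw [norm_prod, norm_prod, Complex.re_sum, ← Finset.sum_sub_distrib, Real.exp_sum,
    ← Finset.prod_mul_distrib]
  refine Finset.prod_le_prod (fun j _ => by positivity) (fun j _ => ?_)
  have hxj : ‖y * q ^ (j + 1)‖ = ‖y‖ * ‖q‖ ^ (j + 1) := by rw [norm_mul, norm_pow]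
  have hlt : ‖y * q ^ (j + 1)‖ < 1 := by
    rw [hxj, pow_succ', ← mul_assoc, ← norm_mul]
    calc ‖y * q‖ * ‖q‖ ^ j ≤ ‖y * q‖ * 1 :=
          mul_le_mul_of_nonneg_left (pow_le_one₀ (norm_nonneg _) hq.le) (norm_nonneg _)
      _ < 1 := by rw [mul_one]; exact hy
  have h := norm_one_sub_ge hlt
  rw [hxj] at h hlt
  have e : ‖(1 : ℂ) - ((‖y‖ : ℝ) : ℂ) * ((‖q‖ : ℝ) : ℂ) ^ (j + 1)‖ = 1 - ‖y‖ * ‖q‖ ^ (j + 1) := by
    have : (1 : ℂ) - ((‖y‖ : ℝ) : ℂ) * ((‖q‖ : ℝ) : ℂ) ^ (j + 1) =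
        ((1 - ‖y‖ * ‖q‖ ^ (j + 1) : ℝ) : ℂ) := by push_cast; ring
    rw [this, Complex.norm_real, Real.norm_of_nonneg (by linarith)]
  rw [e]
  exact h

theorem PP_shift (q x : ℂ) (hq : ‖q‖ < 1) : PP q x = (1 - x * q) * PP q (x * q) := by
  unfold PP
  have h0 : Multipliable (fun j : ℕ => 1 - x * q ^ (j + 1 + 1)) := by
    refine (mult_one_sub q (x * q) hq).congr (fun j => ?_)
    ring
  have h := tprod_eq_zero_mul' (f := fun j : ℕ => 1 - x * q ^ (j + 1)) h0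
  rw [h]
  congr 1
  · ring
  · refine tprod_congr (fun j => ?_)
    ring

theorem sin_low {t0 θ : ℝ} (h0 : 0 < t0) (h1 : t0 ≤ 1 / 50) (h2 : 3 * t0 ≤ |θ|)
    (h3 : |θ| ≤ Real.pi) : (1498 / 1000 * t0) ^ 2 ≤ Real.sin (θ / 2) ^ 2 := by
  have e : Real.sin (θ / 2) ^ 2 = Real.sin (|θ| / 2) ^ 2 := by
    rcases abs_cases θ with ⟨h, _⟩ | ⟨h, _⟩
    · rw [h]
    · rw [h, neg_div, Real.sin_neg, neg_sq]
  rw [e]
  have hx0 : 0 < 3 / 2 * t0 := by positivity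
  have h4 := Real.sin_gt_sub_cube hx0
  have h5 : Real.sin (3 / 2 * t0) ≤ Real.sin (|θ| / 2) := by
    apply Real.sin_le_sin_of_le_of_le_pi_div_two
    · have := Real.pi_pos; linarith
    · linarith
    · linarith
  have h6 : 1498 / 1000 * t0 ≤ 3 / 2 * t0 - (3 / 2 * t0) ^ 3 / 6 := by
    have h7 : (3 / 2 * t0) ^ 3 ≤ (3 / 2 * t0) * (3 / 100) ^ 2 := by
      have : (3 / 2 * t0) ^ 2 ≤ (3 / 100) ^ 2 := by
        apply pow_le_pow_left₀ hx0.le; linarith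
      nlinarith
    nlinarith
  apply pow_le_pow_left₀ (by positivity)
  linarith

theorem one_sub_q_low {t0 θ : ℝ} (h0 : 0 < t0) (h1 : t0 ≤ 1 / 50) (h2 : 3 * t0 ≤ |θ|)
    (h3 : |θ| ≤ Real.pi) :
    ‖cexp (-tt t0 θ)‖ / ‖1 - cexp (-tt t0 θ)‖ ≤ 0.32 / t0 := by
  have hn : ‖cexp (-tt t0 θ)‖ = Real.exp (-t0) := by
    rw [Complex.norm_exp, Complex.neg_re, tt_re]
  set r := Real.exp (-t0) with hr
  have hr0 : 0 < r := Real.exp_pos _
  have hre : (cexp (-tt t0 θ)).re = r * Real.cos θ := by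
    rw [Complex.exp_re, Complex.neg_re, tt_re, Complex.neg_im]
    have : (tt t0 θ).im = θ := by simp [tt]
    rw [this, Real.cos_neg]
  have him : (cexp (-tt t0 θ)).im = -(r * Real.sin θ) := by
    rw [Complex.exp_im, Complex.neg_re, tt_re, Complex.neg_im]
    have : (tt t0 θ).im = θ := by simp [tt]
    rw [this, Real.sin_neg]
    ring
  have hsq : ‖1 - cexp (-tt t0 θ)‖ ^ 2 = (1 - r) ^ 2 + 4 * r * Real.sin (θ / 2) ^ 2 := by
    rw [← Complex.normSq_eq_norm_sq, Complex.normSq_apply, Complex.sub_re, Complex.sub_im,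
      hre, him, Complex.one_re, Complex.one_im]
    have h4 : Real.cos θ = 1 - 2 * Real.sin (θ / 2) ^ 2 := by
      have := Real.cos_sq' (θ / 2)
      have h5 := Real.cos_two_mul (θ / 2)
      rw [show 2 * (θ / 2) = θ by ring] at h5
      rw [h5, this]; ring
    have h5 := Real.sin_sq_add_cos_sq θ
    have h6 : Real.sin θ ^ 2 = 1 - Real.cos θ ^ 2 := by linarith
    have e : (1 - r * Real.cos θ) * (1 - r * Real.cos θ) +
        (0 - -(r * Real.sin θ)) * (0 - -(r * Real.sin θ)) =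
        1 - 2 * r * Real.cos θ + r ^ 2 * (Real.sin θ ^ 2 + Real.cos θ ^ 2) := by ring
    rw [e, h5, h4]
    ring
  have hs := sin_low h0 h1 h2 h3
  have her : 1 ≤ Real.exp t0 * r := by rw [hr, ← Real.exp_add]; simp
  have her' : Real.exp t0 * r = 1 := by rw [hr, ← Real.exp_add]; simp
  have hex : 1 + t0 ≤ Real.exp t0 := by linarith [Real.add_one_le_exp t0]
  have h4 : t0 * r ≤ 1 - r := by
    have : (1 + t0) * r ≤ Real.exp t0 * r := mul_le_mul_of_nonneg_right hex hr0.le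
    linarith
  have hr1 : r ≤ 1 := Real.exp_le_one_iff.2 (by linarith)
  have h5 : (3125 / 1000 * t0 * r) ^ 2 ≤ ‖1 - cexp (-tt t0 θ)‖ ^ 2 := by
    rw [hsq]
    have h6 : (t0 * r) ^ 2 ≤ (1 - r) ^ 2 := pow_le_pow_left₀ (by positivity) h4 2
    have h7 : 4 * r ^ 2 * (1498 / 1000 * t0) ^ 2 ≤ 4 * r * Real.sin (θ / 2) ^ 2 := by
      have h8 : r ^ 2 ≤ r := by nlinarith
      calc 4 * r ^ 2 * (1498 / 1000 * t0) ^ 2 ≤ 4 * r * (1498 / 1000 * t0) ^ 2 := by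
            apply mul_le_mul_of_nonneg_right _ (sq_nonneg _)
            linarith
        _ ≤ 4 * r * Real.sin (θ / 2) ^ 2 := mul_le_mul_of_nonneg_left hs (by positivity)
    nlinarith [mul_pos (mul_pos h0 h0) (mul_pos hr0 hr0)]
  have h6 : 3125 / 1000 * t0 * r ≤ ‖1 - cexp (-tt t0 θ)‖ :=
    (pow_le_pow_iff_left₀ (by positivity) (norm_nonneg _) two_ne_zero).1 h5
  rw [hn, div_le_div_iff₀ (lt_of_lt_of_le (by positivity) h6) h0]
  nlinarith

/-- the gain -/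
theorem gain {t0 θ : ℝ} (h0 : 0 < t0) (h1 : t0 ≤ 1 / 50) (h2 : 3 * t0 ≤ |θ|)
    (h3 : |θ| ≤ Real.pi) :
    0.65 / t0 + 1 / 2 ≤ ‖cexp (-tt t0 θ)‖ / (1 - ‖cexp (-tt t0 θ)‖) -
      ‖cexp (-tt t0 θ)‖ / ‖1 - cexp (-tt t0 θ)‖ := by
  have h4 := one_sub_q_low h0 h1 h2 h3
  have hn : ‖cexp (-tt t0 θ)‖ = Real.exp (-t0) := by
    rw [Complex.norm_exp, Complex.neg_re, tt_re]
  rw [hn] at h4 ⊢
  have hr1 : 1 - t0 ≤ Real.exp (-t0) := by linarith [Real.add_one_le_exp (-t0)]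
  have hr2 : Real.exp (-t0) < 1 := Real.exp_lt_one_iff.2 (by linarith)
  have h5 : 1 / t0 - 1 ≤ Real.exp (-t0) / (1 - Real.exp (-t0)) := by
    have e : 1 / t0 - 1 = (1 - t0) / t0 := by field_simp
    rw [e, div_le_div_iff₀ h0 (by linarith)]
    nlinarith
  have h6 : 50 ≤ 1 / t0 := by
    rw [le_div_iff₀ h0]; linarith
  have e1 : 0.65 / t0 = 0.65 * (1 / t0) := by ring
  have e2 : 0.32 / t0 = 0.32 * (1 / t0) := by ring
  rw [e1]
  rw [e2] at h4
  linarith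

theorem bound_of_gain {t0 G : ℝ} (h0 : 0 < t0) (hG : 0.65 / t0 + 1 / 2 ≤ G) {c : ℝ} (hc : 2 ≤ c) :
    Real.exp (-(c * G)) ≤ Real.exp (-(1.3 / t0)) * Real.exp (-1) := by
  rw [← Real.exp_add]
  refine Real.exp_le_exp.2 ?_
  have h1 : 0 < 0.65 / t0 := by positivity
  have h2 : 2 * (0.65 / t0 + 1 / 2) ≤ c * G := mul_le_mul hc hG (by positivity) (by linarith)
  have e : 1.3 / t0 = 2 * (0.65 / t0) := by ring
  rw [e]
  linarith

theorem re_le_div (q y : ℂ) : (y * q / (1 - q)).re ≤ ‖y‖ * (‖q‖ / ‖1 - q‖) := by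
  refine (Complex.re_le_norm _).trans (le_of_eq ?_)
  rw [norm_div, norm_mul]
  ring

theorem minor (hTH : ThetaStatement) (hE : EtaStatement) : MinorStatement := by
  intro t0 θ φ κ h0 h1 h2 h3 hκ
  have hpi := Real.pi_pos
  set q := cexp (-tt t0 θ) with hq
  have hn : ‖q‖ = Real.exp (-t0) := by
    rw [hq, Complex.norm_exp, Complex.neg_re, tt_re]
  have hq1 : ‖q‖ < 1 := by rw [hn]; exact Real.exp_lt_one_iff.2 (by linarith)
  have hq0 : q ≠ 0 := Complex.exp_ne_zero _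
  have hgain := gain h0 h1 h2 h3
  rw [← hq] at hgain
  set G := ‖q‖ / (1 - ‖q‖) - ‖q‖ / ‖1 - q‖ with hG
  have hG0 : 0 ≤ G := by
    have : 0 < 0.65 / t0 := by positivity
    linarith
  -- real nome
  have hreal : ((‖q‖ : ℝ) : ℂ) = cexp (-tt t0 (t0 * 0)) := by
    rw [hn]
    unfold tt
    push_cast
    congr 1
    ring
  have htr : tt t0 (t0 * 0) = (t0 : ℂ) := by unfold tt; push_cast; ring
  have he1 : Real.exp (-1) ≤ 1 / 2 := by
    have := exp_neg_le_half 1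
    simpa using this
  constructor
  · -- the basic bound, for `κ = 1/2`
    have hbase : ∀ ψ : ℝ, ‖Cp q (cexp (I * ww (1 / 2) (tt t0 θ) ψ))‖ ≤
        Real.exp (Real.pi ^ 2 / (3 * t0) - 1.3 / t0) := by
      intro ψ
      set ζ := cexp (I * ww (1 / 2) (tt t0 θ) ψ) with hζ
      have hre : ∀ (θ' ψ' : ℝ), (I * ww (1 / 2) (tt t0 θ') ψ').re = 1 / 2 * t0 := by
        intro θ' ψ'
        unfold ww
        rw [mul_sub, Complex.sub_re]
        have e : I * (I * ((1 / 2 : ℝ) : ℂ) * tt t0 θ') = -(((1 / 2 : ℝ) : ℂ) * tt t0 θ') := by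
          linear_combination (((1 / 2 : ℝ) : ℂ) * tt t0 θ') * Complex.I_mul_I
        rw [e, Complex.neg_re, Complex.re_ofReal_mul, tt_re]
        simp
      have hζn : ‖ζ‖ = Real.exp (1 / 2 * t0) := by
        rw [hζ, Complex.norm_exp, hre]
      have hζin : ‖ζ⁻¹‖ = Real.exp (-(1 / 2 * t0)) := by
        rw [norm_inv, hζn, Real.exp_neg]
      have hb1 : ‖ζ * q‖ < 1 := by
        rw [norm_mul, hζn, hn, ← Real.exp_add]
        exact Real.exp_lt_one_iff.2 (by linarith)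
      have hb2 : ‖ζ⁻¹ * q‖ < 1 := by
        rw [norm_mul, hζin, hn, ← Real.exp_add]
        exact Real.exp_lt_one_iff.2 (by linarith)
      obtain ⟨hc1, hc2⟩ := zeta_cond (θ := θ) (φ := ψ) (κ := 1 / 2) h0 (Or.inl rfl)
      rw [← hq, ← hζ] at hc1 hc2
      have hl1 := PP_lower q ζ hq1 hb1
      have hl2 := PP_lower q ζ⁻¹ hq1 hb2
      -- the real point
      have hζreal : ((‖ζ‖ : ℝ) : ℂ) = cexp (I * ww (1 / 2) (tt t0 (t0 * 0)) 0) := by
        rw [hζn, htr]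
        unfold ww
        push_cast
        congr 1
        linear_combination ((1 / 2 : ℂ) * t0) * Complex.I_sq
      have hζreal2 : ((‖ζ⁻¹‖ : ℝ) : ℂ) = (cexp (I * ww (1 / 2) (tt t0 (t0 * 0)) 0))⁻¹ := by
        rw [← hζreal, norm_inv, Complex.ofReal_inv]
      obtain ⟨hd1, hd2⟩ := zeta_cond (θ := t0 * 0) (φ := 0) (κ := 1 / 2) h0 (Or.inl rfl)
      rw [← hreal, ← hζreal] at hd1 hd2
      rw [hζreal2] at hl2
      rw [← hζreal] at hl2
      have hq1' : ‖((‖q‖ : ℝ) : ℂ)‖ < 1 := by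
        rw [Complex.norm_real, Real.norm_of_nonneg (norm_nonneg _)]; exact hq1
      have hCr := Cp_eq _ _ hq1' hd1 hd2
      have hC := Cp_eq q ζ hq1 hc1 hc2
      -- value at the real point
      have hval : ‖Cp ((‖q‖ : ℝ) : ℂ) ((‖ζ‖ : ℝ) : ℂ)‖ ≤
          Real.exp (Real.pi ^ 2 / (3 * t0)) * 2 := by
        obtain ⟨ε, hε, hCC⟩ := hTH t0 0 0 (1 / 2) h0 h1 (by norm_num) (by rw [abs_zero]; exact hpi.le)
          (Or.inl rfl) _ _ rfl rfl
        rw [← hreal, ← hζreal] at hCC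
        rw [hCC, norm_mul, norm_div, norm_mul]
        have hsh := (sinh_shift (κ := 1 / 2) (Or.inl rfl)
          ((Real.pi : ℂ) * (((0 : ℝ) / t0 : ℝ) : ℂ) / (1 + ((0 : ℝ) : ℂ) * I))).1
        have hpw := pi_w_div (v := 0) (φ := 0) (κ := 1 / 2) h0
        rw [← hpw] at hsh
        have hcosh : ‖cosh ((Real.pi : ℂ) * (((0 : ℝ) / t0 : ℝ) : ℂ) / (1 + ((0 : ℝ) : ℂ) * I))‖ = 1 := by
          simp
        rw [hcosh] at hsh
        rw [hsh, div_one, htr]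
        have hwv : ww (1 / 2) (t0 : ℂ) 0 = -(((t0 / 2 : ℝ) : ℂ) * I) := by
          unfold ww; push_cast; ring
        rw [hwv]
        have ex : ‖cexp ((Real.pi : ℂ) ^ 2 / (3 * t0) - t0 / 12 +
            (-(((t0 / 2 : ℝ) : ℂ) * I)) ^ 2 / (2 * t0))‖ ≤ Real.exp (Real.pi ^ 2 / (3 * t0)) := by
          rw [Complex.norm_exp]
          refine Real.exp_le_exp.2 ?_
          have e : (Real.pi : ℂ) ^ 2 / (3 * t0) - t0 / 12 +
            (-(((t0 / 2 : ℝ) : ℂ) * I)) ^ 2 / (2 * t0) =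
              ((Real.pi ^ 2 / (3 * t0) - t0 / 12 - (t0 / 2) ^ 2 / (2 * t0) : ℝ) : ℂ) := by
            push_cast
            rw [neg_sq, mul_pow, Complex.I_sq]
            ring
          rw [e, Complex.ofReal_re]
          have : 0 ≤ (t0 / 2) ^ 2 / (2 * t0) := by positivity
          linarith
        have es : ‖sin (-(((t0 / 2 : ℝ) : ℂ) * I) / 2)‖ ≤ 1.4 := by
          have e : -(((t0 / 2 : ℝ) : ℂ) * I) / 2 = -(((t0 / 4 : ℝ) : ℂ) * I) := by
            push_cast; ring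
          rw [e, Complex.sin_neg, norm_neg, Complex.sin_mul_I, norm_mul, Complex.norm_I, mul_one,
            ← Complex.ofReal_sinh, Complex.norm_real, Real.norm_eq_abs,
            abs_of_nonneg (Real.sinh_nonneg_iff.2 (by positivity)), Real.sinh_eq]
          have h4 : Real.exp (t0 / 4) ≤ Real.exp 1 := Real.exp_le_exp.2 (by linarith)
          have h5 := Real.exp_one_lt_d9
          have h6 := Real.exp_pos (-(t0 / 4))
          linarith
        have eε : ‖1 + ε‖ ≤ 1.001 := by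
          refine (norm_add_le _ _).trans ?_
          rw [norm_one]; linarith
        calc ‖cexp ((Real.pi : ℂ) ^ 2 / (3 * t0) - t0 / 12 +
            (-(((t0 / 2 : ℝ) : ℂ) * I)) ^ 2 / (2 * t0))‖ *
            ‖sin (-(((t0 / 2 : ℝ) : ℂ) * I) / 2)‖ * ‖1 + ε‖
            ≤ Real.exp (Real.pi ^ 2 / (3 * t0)) * 1.4 * 1.001 := by
              gcongr
          _ ≤ Real.exp (Real.pi ^ 2 / (3 * t0)) * 2 := by
              have := Real.exp_pos (Real.pi ^ 2 / (3 * t0))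
              nlinarith
      -- put together
      rw [hC, norm_inv, norm_mul]
      rw [hCr, norm_inv, norm_mul] at hval
      set A := ‖PP ((‖q‖ : ℝ) : ℂ) ((‖ζ‖ : ℝ) : ℂ)‖ with hA
      set B := ‖PP ((‖q‖ : ℝ) : ℂ) (((‖ζ‖ : ℝ) : ℂ))⁻¹‖ with hB
      have hA0 : 0 < A := norm_pos_iff.2 (PP_ne _ _ hq1' hd1)
      have hB0 : 0 < B := norm_pos_iff.2 (PP_ne _ _ hq1' hd2)
      have hr1 := re_le_div q ζ
      have hr2 := re_le_div q ζ⁻¹
      have hexp1 : Real.exp (‖ζ‖ * G) ≤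
          Real.exp (‖ζ‖ * ‖q‖ / (1 - ‖q‖) - (ζ * q / (1 - q)).re) := by
        refine Real.exp_le_exp.2 ?_
        rw [hG, mul_sub, ← mul_div_assoc]
        linarith
      have hexp2 : Real.exp (‖ζ⁻¹‖ * G) ≤
          Real.exp (‖ζ⁻¹‖ * ‖q‖ / (1 - ‖q‖) - (ζ⁻¹ * q / (1 - q)).re) := by
        refine Real.exp_le_exp.2 ?_
        rw [hG, mul_sub, ← mul_div_assoc]
        linarith
      have hm1 : A * Real.exp (‖ζ‖ * G) ≤ ‖PP q ζ‖ :=
        (mul_le_mul_of_nonneg_left hexp1 hA0.le).trans hl1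
      have hm2 : B * Real.exp (‖ζ⁻¹‖ * G) ≤ ‖PP q ζ⁻¹‖ :=
        (mul_le_mul_of_nonneg_left hexp2 hB0.le).trans hl2
      have hm : (A * B) * Real.exp ((‖ζ‖ + ‖ζ⁻¹‖) * G) ≤ ‖PP q ζ‖ * ‖PP q ζ⁻¹‖ := by
        rw [add_mul, Real.exp_add]
        calc A * B * (Real.exp (‖ζ‖ * G) * Real.exp (‖ζ⁻¹‖ * G)) =
              (A * Real.exp (‖ζ‖ * G)) * (B * Real.exp (‖ζ⁻¹‖ * G)) := by ring
          _ ≤ _ := mul_le_mul hm1 hm2 (by positivity) (norm_nonneg _)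
      have hc : 2 ≤ ‖ζ‖ + ‖ζ⁻¹‖ := by
        rw [hζn, hζin]
        have h4 := Real.add_one_le_exp (1 / 2 * t0)
        have h5 := Real.add_one_le_exp (-(1 / 2 * t0))
        linarith
      have hbg := bound_of_gain h0 hgain hc
      calc (‖PP q ζ‖ * ‖PP q ζ⁻¹‖)⁻¹ ≤ ((A * B) * Real.exp ((‖ζ‖ + ‖ζ⁻¹‖) * G))⁻¹ :=
            inv_anti₀ (by positivity) hm
        _ = (A * B)⁻¹ * Real.exp (-((‖ζ‖ + ‖ζ⁻¹‖) * G)) := by
            rw [mul_inv, Real.exp_neg]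
        _ ≤ (Real.exp (Real.pi ^ 2 / (3 * t0)) * 2) *
            (Real.exp (-(1.3 / t0)) * Real.exp (-1)) :=
            mul_le_mul hval hbg (Real.exp_pos _).le (by positivity)
        _ ≤ Real.exp (Real.pi ^ 2 / (3 * t0) - 1.3 / t0) := by
            rw [sub_eq_add_neg, Real.exp_add]
            have h4 := Real.exp_pos (Real.pi ^ 2 / (3 * t0))
            have h5 := Real.exp_pos (-(1.3 / t0))
            have h6 : 0 < Real.exp (Real.pi ^ 2 / (3 * t0)) * Real.exp (-(1.3 / t0)) := by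
              positivity
            nlinarith
    have hfac : 1 ≤ 4 / t0 := by
      rw [le_div_iff₀ h0]; linarith
    have hE0 := Real.exp_pos (Real.pi ^ 2 / (3 * t0) - 1.3 / t0)
    rcases hκ with hκ | hκ
    · subst hκ
      refine (hbase φ).trans ?_
      nlinarith
    · subst hκ
      obtain ⟨hc1, hc2⟩ := zeta_cond (θ := θ) (φ := φ) (κ := 3 / 2) h0 (Or.inr rfl)
      obtain ⟨hc1', hc2'⟩ := zeta_cond (θ := θ) (φ := φ) (κ := 1 / 2) h0 (Or.inl rfl)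
      have hz : cexp (I * ww (1 / 2) (tt t0 θ) φ) =
          cexp (I * ww (3 / 2) (tt t0 θ) φ) * q := by
        rw [hq, ← Complex.exp_add]
        congr 1
        unfold ww
        push_cast
        linear_combination ((tt t0 θ)) * Complex.I_sq
      have hb := hbase φ
      rw [← hq] at hc1 hc2 hc1' hc2'
      rw [hz] at hc1' hc2' hb
      set ζ := cexp (I * ww (3 / 2) (tt t0 θ) φ) with hζ
      have hζ0 : ζ ≠ 0 := Complex.exp_ne_zero _
      have hre : (I * ww (3 / 2) (tt t0 θ) φ).re = 3 / 2 * t0 := by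
        unfold ww
        rw [mul_sub, Complex.sub_re]
        have e : I * (I * ((3 / 2 : ℝ) : ℂ) * tt t0 θ) = -(((3 / 2 : ℝ) : ℂ) * tt t0 θ) := by
          linear_combination (((3 / 2 : ℝ) : ℂ) * tt t0 θ) * Complex.I_mul_I
        rw [e, Complex.neg_re, Complex.re_ofReal_mul, tt_re]
        simp
      have hζn : ‖ζ‖ = Real.exp (3 / 2 * t0) := by
        rw [hζ, Complex.norm_exp, hre]
      have hsh1 := PP_shift q ζ hq1
      have hsh2 := PP_shift q (ζ * q)⁻¹ hq1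
      have e1 : (ζ * q)⁻¹ * q = ζ⁻¹ := by field_simp
      rw [e1] at hsh2
      have hn1 : 1 - ζ * q ≠ 0 := by
        have := hc1 0
        simp only [zero_add, pow_one] at this
        exact sub_ne_zero.2 this.symm
      have hn2 : 1 - ζ⁻¹ ≠ 0 := by
        have := hc2' 0
        simp only [zero_add, pow_one] at this
        rw [e1] at this
        exact sub_ne_zero.2 this.symm
      have hCeq : Cp q ζ = Cp q (ζ * q) * ((1 - ζ⁻¹) / (1 - ζ * q)) := by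
        rw [Cp_eq q ζ hq1 hc1 hc2, Cp_eq q (ζ * q) hq1 hc1' hc2', hsh1, hsh2]
        have h4 := PP_ne q (ζ * q) hq1 hc1'
        have h5 := PP_ne q ζ⁻¹ hq1 hc2
        generalize PP q ζ⁻¹ = B at h5 ⊢
        generalize PP q (ζ * q) = B2 at h4 ⊢
        generalize 1 - ζ⁻¹ = D at hn2 ⊢
        generalize 1 - ζ * q = D2 at hn1 ⊢
        field_simp
      rw [hCeq, norm_mul, norm_div]
      have h4 : ‖1 - ζ⁻¹‖ ≤ 2 := by
        refine (norm_sub_le _ _).trans ?_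
        rw [norm_one, norm_inv, hζn, ← Real.exp_neg]
        have : Real.exp (-(3 / 2 * t0)) ≤ 1 := Real.exp_le_one_iff.2 (by linarith)
        linarith
      have h5 : t0 / 2 ≤ ‖1 - ζ * q‖ := by
        have h6 : ‖ζ * q‖ ≤ ‖1 - ζ * q‖ + 1 := by
          have e : ζ * q = 1 - (1 - ζ * q) := by ring
          calc ‖ζ * q‖ = ‖1 - (1 - ζ * q)‖ := by rw [← e]
            _ ≤ ‖(1 : ℂ)‖ + ‖1 - ζ * q‖ := norm_sub_le _ _
            _ = ‖1 - ζ * q‖ + 1 := by rw [norm_one]; ring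
        rw [norm_mul, hζn, hn, ← Real.exp_add] at h6
        have h7 := Real.add_one_le_exp (3 / 2 * t0 + -t0)
        linarith
      have h6 : ‖1 - ζ⁻¹‖ / ‖1 - ζ * q‖ ≤ 4 / t0 := by
        rw [div_le_div_iff₀ (by linarith) h0]
        nlinarith [norm_nonneg (1 - ζ⁻¹)]
      calc ‖Cp q (ζ * q)‖ * (‖1 - ζ⁻¹‖ / ‖1 - ζ * q‖)
          ≤ Real.exp (Real.pi ^ 2 / (3 * t0) - 1.3 / t0) * (4 / t0) :=
            mul_le_mul hb h6 (by positivity) hE0.le
        _ = _ := by ring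
  · have hl := PP_lower q 1 hq1 (by rw [one_mul]; exact hq1)
    rw [norm_one, one_mul, Complex.ofReal_one, ← QP_eq, ← QP_eq] at hl
    obtain ⟨ε, hε, hEE⟩ := hE t0 0 h0 h1 (by norm_num) _ rfl
    rw [← hreal] at hEE
    have hr := re_le_div q 1
    rw [norm_one, one_mul (‖q‖ / ‖1 - q‖)] at hr
    have hq1' : ‖((‖q‖ : ℝ) : ℂ)‖ < 1 := by
      rw [Complex.norm_real, Real.norm_of_nonneg (norm_nonneg _)]; exact hq1
    have hA0 : 0 < ‖QP ((‖q‖ : ℝ) : ℂ)‖ := norm_pos_iff.2 (QP_ne _ hq1')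
    have hexp1 : Real.exp G ≤ Real.exp (‖q‖ / (1 - ‖q‖) - (1 * q / (1 - q)).re) := by
      refine Real.exp_le_exp.2 ?_
      rw [hG]
      linarith
    have hm : ‖QP ((‖q‖ : ℝ) : ℂ)‖ * Real.exp G ≤ ‖QP q‖ :=
      (mul_le_mul_of_nonneg_left hexp1 hA0.le).trans hl
    have hbg := bound_of_gain h0 hgain (le_refl (2 : ℝ))
    have hval : ‖(QP ((‖q‖ : ℝ) : ℂ))⁻¹ ^ 2‖ ≤ Real.exp (Real.pi ^ 2 / (3 * t0)) := by
      rw [hEE, norm_mul, norm_mul, htr]
      have ex : ‖cexp ((Real.pi : ℂ) ^ 2 / (3 * t0) - t0 / 12)‖ ≤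
          Real.exp (Real.pi ^ 2 / (3 * t0)) := by
        rw [Complex.norm_exp]
        refine Real.exp_le_exp.2 ?_
        have e : (Real.pi : ℂ) ^ 2 / (3 * t0) - t0 / 12 =
            ((Real.pi ^ 2 / (3 * t0) - t0 / 12 : ℝ) : ℂ) := by push_cast; ring
        rw [e, Complex.ofReal_re]
        linarith
      have et : ‖(t0 : ℂ) / (2 * (Real.pi : ℂ))‖ ≤ 1 / 2 := by
        have e : (t0 : ℂ) / (2 * (Real.pi : ℂ)) = ((t0 / (2 * Real.pi) : ℝ) : ℂ) := by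
          push_cast; ring
        rw [e, Complex.norm_real, Real.norm_of_nonneg (by positivity), div_le_iff₀ (by positivity)]
        have := Real.pi_gt_three
        linarith
      have eε : ‖1 + ε‖ ≤ 2 := by
        refine (norm_add_le _ _).trans ?_
        rw [norm_one]; linarith
      calc ‖(t0 : ℂ) / (2 * (Real.pi : ℂ))‖ * ‖cexp ((Real.pi : ℂ) ^ 2 / (3 * t0) - t0 / 12)‖ *
            ‖1 + ε‖ ≤ 1 / 2 * Real.exp (Real.pi ^ 2 / (3 * t0)) * 2 := by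
            gcongr
        _ = _ := by ring
    rw [norm_pow, norm_inv] at hval ⊢
    have h4 : ‖QP q‖⁻¹ ≤ ‖QP ((‖q‖ : ℝ) : ℂ)‖⁻¹ * Real.exp (-G) := by
      rw [Real.exp_neg, ← mul_inv]
      exact inv_anti₀ (by positivity) hm
    calc ‖QP q‖⁻¹ ^ 2 ≤ (‖QP ((‖q‖ : ℝ) : ℂ)‖⁻¹ * Real.exp (-G)) ^ 2 :=
          pow_le_pow_left₀ (by positivity) h4 2
      _ = ‖QP ((‖q‖ : ℝ) : ℂ)‖⁻¹ ^ 2 * Real.exp (-(2 * G)) := by
          rw [mul_pow, ← Real.exp_nat_mul]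
          congr 2
          push_cast
          ring
      _ ≤ Real.exp (Real.pi ^ 2 / (3 * t0)) * (Real.exp (-(1.3 / t0)) * Real.exp (-1)) :=
          mul_le_mul hval hbg (Real.exp_pos _).le (Real.exp_pos _).le
      _ ≤ Real.exp (Real.pi ^ 2 / (3 * t0) - 1.3 / t0) := by
          rw [sub_eq_add_neg (Real.pi ^ 2 / (3 * t0)), Real.exp_add]
          have h4 := Real.exp_pos (Real.pi ^ 2 / (3 * t0))
          have h5 := Real.exp_pos (-(1.3 / t0))
          have h6 : 0 < Real.exp (Real.pi ^ 2 / (3 * t0)) * Real.exp (-(1.3 / t0)) := by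
            positivity
          nlinarith

end Pool.Agent.Helper21_UR.H97
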