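import Pool.Agent.Helper97_UR.TRIPLE

/-! # UR, module ETA: the modular transformation of `(q)_∞` -/

namespace Pool.Agent.Helper21_UR.H97

open Complex Filter Topology

/-! ### crude bounds -/

theorem exp_neg_le_half (n : ℕ) : Real.exp (-(n : ℝ)) ≤ (1 / 2) ^ n := by
  have h1 : Real.exp (-1) ≤ 1 / 2 := by
    rw [Real.exp_neg]
    have := Real.exp_one_gt_d9
    rw [one_div]
    exact inv_anti₀ (by norm_num) (by linarith)
  have h2 : Real.exp (-(n : ℝ)) = Real.exp (-1) ^ n := by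
    rw [← Real.exp_nat_mul]
    congr 1
    ring
  rw [h2]
  exact pow_le_pow_left₀ (Real.exp_pos _).le h1 n

theorem exp_small {x : ℝ} (hx : 90 ≤ x) : Real.exp (-x) ≤ 1 / 1000000 := by
  have h1 : Real.exp (-x) ≤ Real.exp (-((90 : ℕ) : ℝ)) :=
    Real.exp_le_exp.2 (by push_cast; linarith)
  refine h1.trans ((exp_neg_le_half 90).trans ?_)
  norm_num

theorem QP_sub_one {Q : ℂ} (hQ : ‖Q‖ ≤ 1 / 1000000) : ‖QP Q - 1‖ ≤ 1 / 200000 := by
  have hQ1 : ‖Q‖ < 1 := by linarith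
  have ht : Tendsto (fun N : ℕ => ‖∏ j ∈ Finset.range N, (1 - 1 * Q ^ (j + 1)) - 1‖) atTop
      (𝓝 ‖QP Q - 1‖) := by
    rw [QP_eq]
    exact ((PP_tendsto Q 1 hQ1).sub_const 1).norm
  refine le_of_tendsto' ht (fun N => ?_)
  have h1 := Finset.norm_prod_one_add_sub_one_le (Finset.range N) (fun j : ℕ => -(Q ^ (j + 1)))
  have e : ∏ j ∈ Finset.range N, (1 - 1 * Q ^ (j + 1)) =
      ∏ j ∈ Finset.range N, (1 + -(Q ^ (j + 1))) := by
    refine Finset.prod_congr rfl (fun j _ => ?_)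
    ring
  rw [e]
  refine h1.trans ?_
  have h2 : ∑ j ∈ Finset.range N, ‖-(Q ^ (j + 1))‖ ≤ 2 * ‖Q‖ := by
    have h3 : ∀ j ∈ Finset.range N, ‖-(Q ^ (j + 1))‖ ≤ ‖Q‖ * (1 / 2 : ℝ) ^ j := by
      intro j _
      rw [norm_neg, norm_pow, pow_succ']
      exact mul_le_mul_of_nonneg_left (pow_le_pow_left₀ (norm_nonneg _) (by linarith) j)
        (norm_nonneg _)
    refine (Finset.sum_le_sum h3).trans ?_
    rw [← Finset.mul_sum]
    have h4 : ∑ j ∈ Finset.range N, (1 / 2 : ℝ) ^ j ≤ 2 := by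
      have := Summable.sum_le_tsum (Finset.range N) (fun j _ => by positivity)
        (summable_geometric_two)
      rw [tsum_geometric_two] at this
      exact this
    nlinarith [norm_nonneg Q]
  have h5 : Real.exp (∑ j ∈ Finset.range N, ‖-(Q ^ (j + 1))‖) ≤ Real.exp (1 / 500000) :=
    Real.exp_le_exp.2 (by linarith)
  have h6 : Real.exp (1 / 500000) ≤ 1 + 1 / 200000 := by
    have h7 := Real.exp_bound' (x := 1 / 500000) (by norm_num) (by norm_num) (n := 2) (by norm_num)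
    refine h7.trans ?_
    norm_num [Finset.sum_range_succ, Nat.factorial]
  linarith

theorem re_inv_bound {t0 v : ℝ} (h0 : 0 < t0) (h1 : t0 ≤ 1 / 50) (hv : |v| ≤ 3) :
    5 ≤ 1 / (t0 * (1 + v ^ 2)) := by
  have h2 : v ^ 2 ≤ 9 := by
    have := abs_le.1 hv
    nlinarith
  have h3 : 0 < t0 * (1 + v ^ 2) := by positivity
  rw [le_div_iff₀ h3]
  nlinarith [sq_nonneg v]

theorem tt_inv {t0 v : ℝ} (h0 : 0 < t0) : ((tt t0 (t0 * v))⁻¹).re = 1 / (t0 * (1 + v ^ 2)) := by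
  unfold tt
  rw [Complex.inv_re]
  have hre : ((t0 : ℂ) + ((t0 * v : ℝ) : ℂ) * I).re = t0 := by simp
  have hns : Complex.normSq ((t0 : ℂ) + ((t0 * v : ℝ) : ℂ) * I) = t0 ^ 2 * (1 + v ^ 2) := by
    rw [Complex.normSq_add_mul_I]; ring
  rw [hre, hns]
  have h3 : 0 < 1 + v ^ 2 := by positivity
  field_simp

theorem tt_re (t0 θ : ℝ) : (tt t0 θ).re = t0 := by simp [tt]

/-- the conjugate nome -/
noncomputable def QQ (t : ℂ) : ℂ := cexp (-(4 * (Real.pi : ℂ) ^ 2 / t))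

theorem QQ_norm {t0 v : ℝ} (h0 : 0 < t0) (h1 : t0 ≤ 1 / 50) (hv : |v| ≤ 3) :
    ‖QQ (tt t0 (t0 * v))‖ ≤ 1 / 1000000 := by
  unfold QQ
  rw [Complex.norm_exp]
  have e : (-(4 * (Real.pi : ℂ) ^ 2 / tt t0 (t0 * v))).re =
      -(4 * Real.pi ^ 2 * (1 / (t0 * (1 + v ^ 2)))) := by
    have e2 : (4 * (Real.pi : ℂ) ^ 2 / tt t0 (t0 * v)) =
        ((4 * Real.pi ^ 2 : ℝ) : ℂ) * (tt t0 (t0 * v))⁻¹ := by
      push_cast; rw [div_eq_mul_inv]
    rw [e2, Complex.neg_re, Complex.re_ofReal_mul, tt_inv h0]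
  rw [e]
  apply exp_small
  have h2 := re_inv_bound h0 h1 hv
  have hpi := Real.pi_gt_three
  nlinarith [mul_pos Real.pi_pos Real.pi_pos]

/-! ### the modular transformation -/

theorem eta_QP (t : ℂ) : ModularForm.eta (I * t / (2 * Real.pi)) =
    cexp (-(t / 24)) * QP (cexp (-t)) := by
  have hpi : (Real.pi : ℂ) ≠ 0 := by exact_mod_cast Real.pi_ne_zero
  unfold ModularForm.eta QP
  have e1 : Function.Periodic.qParam 24 (I * t / (2 * Real.pi)) = cexp (-(t / 24)) := by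
    unfold Function.Periodic.qParam
    congr 1
    push_cast
    field_simp
    rw [Complex.I_sq]
    ring
  have e2 : ∀ n : ℕ, ModularForm.eta_q n (I * t / (2 * Real.pi)) = cexp (-t) ^ (n + 1) := by
    intro n
    rw [ModularForm.eta_q_eq_pow]
    congr 2
    field_simp
    rw [Complex.I_sq]
    ring
  rw [e1]
  simp only [e2]

theorem eta_QQ (t : ℂ) (ht : t ≠ 0) : ModularForm.eta (-1 / (I * t / (2 * Real.pi))) =
    cexp (-((Real.pi : ℂ) ^ 2 / (6 * t))) * QP (QQ t) := by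
  have hpi : (Real.pi : ℂ) ≠ 0 := by exact_mod_cast Real.pi_ne_zero
  have e : -1 / (I * t / (2 * Real.pi)) = I * (4 * (Real.pi : ℂ) ^ 2 / t) / (2 * Real.pi) := by
    field_simp
    rw [Complex.I_sq]
    ring
  rw [e, eta_QP]
  unfold QQ
  congr 2
  field_simp
  ring

theorem tau_im {t : ℂ} (ht : 0 < t.re) : (I * t / (2 * Real.pi) : ℂ) ∈ UpperHalfPlane.upperHalfPlaneSet := by
  change 0 < (I * t / (2 * Real.pi) : ℂ).im
  have e : (I * t / (2 * Real.pi) : ℂ) = I * t / ((2 * Real.pi : ℝ) : ℂ) := by push_cast; ring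
  rw [e, Complex.div_ofReal_im, Complex.I_mul_im]
  have := Real.pi_pos
  positivity

/-- The modular transformation. -/
theorem QP_trans {t : ℂ} (ht : 0 < t.re) :
    cexp (-((Real.pi : ℂ) ^ 2 / (6 * t))) * QP (QQ t) =
      (Complex.sqrt I)⁻¹ * (Complex.sqrt (I * t / (2 * Real.pi)) *
        (cexp (-(t / 24)) * QP (cexp (-t)))) := by
  have ht0 : t ≠ 0 := by
    intro h; rw [h] at ht; simp at ht
  have h := ModularForm.eta_comp_eq_csqrt_I_inv (tau_im ht)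
  simp only [Function.comp_apply, Pi.smul_apply, Pi.mul_apply, smul_eq_mul] at h
  rw [eta_QQ t ht0, eta_QP] at h
  exact h

theorem exp_neg_norm_lt {t : ℂ} (ht : 0 < t.re) : ‖cexp (-t)‖ < 1 := by
  rw [Complex.norm_exp, Complex.neg_re, Real.exp_lt_one_iff]
  linarith

theorem QQ_norm_lt {t : ℂ} (ht : 0 < t.re) : ‖QQ t‖ < 1 := by
  unfold QQ
  refine exp_neg_norm_lt ?_
  have e2 : (4 * (Real.pi : ℂ) ^ 2 / t) = ((4 * Real.pi ^ 2 : ℝ) : ℂ) * t⁻¹ := by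
    push_cast; rw [div_eq_mul_inv]
  rw [e2, Complex.re_ofReal_mul, Complex.inv_re]
  have ht0 : t ≠ 0 := by
    intro h; rw [h] at ht; simp at ht
  have h3 : 0 < Complex.normSq t := Complex.normSq_pos.2 ht0
  have := Real.pi_pos
  positivity

theorem P2_trans {t : ℂ} (ht : 0 < t.re) : (QP (cexp (-t)))⁻¹ ^ 2 =
    t / (2 * (Real.pi : ℂ)) * cexp ((Real.pi : ℂ) ^ 2 / (3 * t) - t / 12) *
      ((QP (QQ t))⁻¹ ^ 2) := by
  have hpi : (Real.pi : ℂ) ≠ 0 := by exact_mod_cast Real.pi_ne_zero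
  have ht0 : t ≠ 0 := by
    intro h; rw [h] at ht; simp at ht
  have h := QP_trans ht
  have h1 : QP (cexp (-t)) ≠ 0 := QP_ne _ (exp_neg_norm_lt ht)
  have h2 : QP (QQ t) ≠ 0 := QP_ne _ (QQ_norm_lt ht)
  have hsq : ∀ z : ℂ, Complex.sqrt z ^ 2 = z := fun z => by
    rw [Complex.sqrt]
    rw [← Complex.cpow_nat_mul]
    norm_num
  have h3 : (cexp (-((Real.pi : ℂ) ^ 2 / (6 * t))) * QP (QQ t)) ^ 2 =
      (I)⁻¹ * ((I * t / (2 * Real.pi)) * (cexp (-(t / 24)) * QP (cexp (-t))) ^ 2) := by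
    rw [h, mul_pow, inv_pow, mul_pow, hsq, hsq]
  have h4 : (I)⁻¹ * ((I * t / (2 * Real.pi)) * (cexp (-(t / 24)) * QP (cexp (-t))) ^ 2) =
      t / (2 * Real.pi) * (cexp (-(t / 24)) ^ 2 * QP (cexp (-t)) ^ 2) := by
    have := Complex.I_ne_zero
    field_simp
  rw [h4, mul_pow] at h3
  have h5 : cexp (-((Real.pi : ℂ) ^ 2 / (6 * t))) ^ 2 = cexp (-((Real.pi : ℂ) ^ 2 / (3 * t))) := by
    rw [← Complex.exp_nat_mul]
    congr 1
    push_cast
    field_simp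
    ring
  have h6 : cexp (-(t / 24)) ^ 2 = cexp (-(t / 12)) := by
    rw [← Complex.exp_nat_mul]
    congr 1
    push_cast
    ring
  rw [h5, h6] at h3
  have h7 : cexp ((Real.pi : ℂ) ^ 2 / (3 * t) - t / 12) =
      cexp (-(t / 12)) * (cexp (-((Real.pi : ℂ) ^ 2 / (3 * t))))⁻¹ := by
    rw [← Complex.exp_neg, ← Complex.exp_add]
    congr 1
    ring
  rw [h7, inv_pow, inv_pow]
  have h8 : cexp (-((Real.pi : ℂ) ^ 2 / (3 * t))) ≠ 0 := Complex.exp_ne_zero _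
  rw [eq_comm]
  refine eq_inv_of_mul_eq_one_left ?_
  calc t / (2 * (Real.pi : ℂ)) * (cexp (-(t / 12)) * (cexp (-((Real.pi : ℂ) ^ 2 / (3 * t))))⁻¹) *
        (QP (QQ t) ^ 2)⁻¹ * QP (cexp (-t)) ^ 2
      = (t / (2 * Real.pi) * (cexp (-(t / 12)) * QP (cexp (-t)) ^ 2)) *
        ((cexp (-((Real.pi : ℂ) ^ 2 / (3 * t))))⁻¹ * (QP (QQ t) ^ 2)⁻¹) := by ring
    _ = 1 := by
      rw [← h3]
      field_simp

theorem inv_sq_bound {y : ℂ} (hy : ‖y - 1‖ ≤ 1 / 200000) : ‖y⁻¹ ^ 2 - 1‖ ≤ 1 / 1000 := by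
  have h1 : 1 - 1 / 200000 ≤ ‖y‖ := by
    have h2 : ‖(1 : ℂ)‖ ≤ ‖y‖ + ‖y - 1‖ := by
      have e : (1 : ℂ) = y - (y - 1) := by ring
      calc ‖(1 : ℂ)‖ = ‖y - (y - 1)‖ := by rw [← e]
        _ ≤ ‖y‖ + ‖y - 1‖ := norm_sub_le _ _
    rw [norm_one] at h2
    linarith
  have h3 : ‖y‖ ≤ 1 + 1 / 200000 := by
    have e : y = (y - 1) + 1 := by ring
    calc ‖y‖ = ‖(y - 1) + 1‖ := by rw [← e]
      _ ≤ ‖y - 1‖ + ‖(1 : ℂ)‖ := norm_add_le _ _
      _ ≤ 1 + 1 / 200000 := by rw [norm_one]; linarith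
  have hy0 : y ≠ 0 := by
    intro h; rw [h, norm_zero] at h1; norm_num at h1
  have e : y⁻¹ ^ 2 - 1 = -((y - 1) * (y + 1)) / y ^ 2 := by
    field_simp
    ring
  rw [e, norm_div, norm_neg, norm_mul, norm_pow]
  have h4 : ‖y + 1‖ ≤ 3 := by
    calc ‖y + 1‖ ≤ ‖y‖ + ‖(1 : ℂ)‖ := norm_add_le _ _
      _ ≤ 3 := by rw [norm_one]; linarith
  have h5 : (1 / 2 : ℝ) ≤ ‖y‖ ^ 2 := by nlinarith
  rw [div_le_iff₀ (by linarith)]
  have h6 : ‖y - 1‖ * ‖y + 1‖ ≤ 1 / 200000 * 3 :=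
    mul_le_mul hy h4 (norm_nonneg _) (by norm_num)
  linarith

theorem eta : EtaStatement := by
  intro t0 v h0 h1 hv t ht
  have htr : 0 < t.re := by rw [ht, tt_re]; exact h0
  refine ⟨(QP (QQ t))⁻¹ ^ 2 - 1, inv_sq_bound (QP_sub_one ?_), ?_⟩
  · rw [ht]; exact QQ_norm h0 h1 hv
  · rw [P2_trans htr, add_sub_cancel]

end Pool.Agent.Helper21_UR.H97
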