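import Pool.Agent.Helper97_UR.ETA

/-! # UR, module THETA -/

namespace Pool.Agent.Helper21_UR.H97

open Complex Filter Topology

/-- normalised terms of the transformed theta series -/
noncomputable def EN (t w : ℂ) (n : ℤ) : ℂ :=
  cexp (-((((2 * n - 1 : ℤ) : ℂ) ^ 2 - 1) * (Real.pi : ℂ) ^ 2 / (2 * t)) +
    ((2 * n - 1 : ℤ) : ℂ) * Real.pi * w / t - I * ((2 * n - 1 : ℤ) : ℂ) * Real.pi / 2)

/-- the common factor -/
noncomputable def GG (t w : ℂ) : ℂ :=
  cexp (-(w ^ 2 / (2 * t)) + t / 8 - (Real.pi : ℂ) ^ 2 / (2 * t) + I * w / 2)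

theorem EN_one (t w : ℂ) : EN t w 1 = -I * cexp ((Real.pi : ℂ) * w / t) := by
  unfold EN
  have e : -((((2 * 1 - 1 : ℤ) : ℂ) ^ 2 - 1) * (Real.pi : ℂ) ^ 2 / (2 * t)) +
    ((2 * 1 - 1 : ℤ) : ℂ) * Real.pi * w / t - I * ((2 * 1 - 1 : ℤ) : ℂ) * Real.pi / 2 =
    (Real.pi : ℂ) * w / t + -(Real.pi / 2 * I) := by
    push_cast
    ring
  rw [e, Complex.exp_add, Complex.exp_neg, Complex.exp_pi_div_two_mul_I, Complex.inv_I]
  ring

theorem EN_zero (t w : ℂ) : EN t w 0 = I * cexp (-((Real.pi : ℂ) * w / t)) := by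
  unfold EN
  have e : -((((2 * 0 - 1 : ℤ) : ℂ) ^ 2 - 1) * (Real.pi : ℂ) ^ 2 / (2 * t)) +
    ((2 * 0 - 1 : ℤ) : ℂ) * Real.pi * w / t - I * ((2 * 0 - 1 : ℤ) : ℂ) * Real.pi / 2 =
    -((Real.pi : ℂ) * w / t) + (Real.pi / 2 * I) := by
    push_cast
    ring
  rw [e, Complex.exp_add, Complex.exp_pi_div_two_mul_I]
  ring

theorem theta_sum {t : ℂ} (ht : 0 < t.re) (w : ℂ) :
    Summable (EN t w) ∧
    ∑' n : ℤ, TT (cexp (-t)) (cexp (I * w)) n =
      1 / (t / (2 * Real.pi)) ^ (1 / 2 : ℂ) * GG t w * ∑' n : ℤ, EN t w n := by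
  have hpi : (Real.pi : ℂ) ≠ 0 := by exact_mod_cast Real.pi_ne_zero
  have ht0 : t ≠ 0 := by
    intro h; rw [h] at ht; simp at ht
  set z : ℂ := 1 / 2 - (-t) / (4 * Real.pi * I) + (I * w) / (2 * Real.pi * I) with hz
  set τ : ℂ := (-t) / (2 * Real.pi * I) with hτ
  have hτ2 : τ = I * t / (2 * Real.pi) := by
    rw [hτ]
    field_simp
    rw [Complex.I_sq]
  have hτim : 0 < τ.im := by rw [hτ2]; exact tau_im ht
  have hz2 : z = (Real.pi - I * t / 2 + w) / (2 * Real.pi) := by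
    rw [hz]
    field_simp
    linear_combination (4 * t) * Complex.I_sq
  have e1 : ∑' n : ℤ, TT (cexp (-t)) (cexp (I * w)) n = jacobiTheta₂ z τ := by
    unfold jacobiTheta₂
    refine tsum_congr (fun n => ?_)
    exact TT_eq n (-t) (I * w)
  have hτ0 : τ ≠ 0 := by
    intro h; rw [h] at hτim; simp at hτim
  have e2 : ∀ n : ℤ, cexp (-Real.pi * I * z ^ 2 / τ) * jacobiTheta₂_term n (z / τ) (-1 / τ) =
      GG t w * EN t w n := by
    intro n
    unfold jacobiTheta₂_term GG EN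
    rw [← Complex.exp_add, ← Complex.exp_add]
    congr 1
    rw [hz2, hτ2]
    push_cast
    field_simp
    ring_nf
    simp only [Complex.I_sq]
    ring_nf
  have hG : GG t w ≠ 0 := Complex.exp_ne_zero _
  have e3 : -I * τ = t / (2 * Real.pi) := by
    rw [hτ2]
    have := Complex.I_mul_I
    field_simp
    rw [Complex.I_sq]
    ring
  have him2 : 0 < (-1 / τ).im := by
    rw [neg_div, one_div, Complex.neg_im, Complex.inv_im]
    have := Complex.normSq_pos.2 hτ0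
    have h2 : 0 < τ.im / Complex.normSq τ := div_pos hτim this
    rw [neg_div, neg_neg]
    exact h2
  have hs : Summable (fun n : ℤ => jacobiTheta₂_term n (z / τ) (-1 / τ)) :=
    (summable_jacobiTheta₂_term_iff _ _).2 him2
  have hs2 : Summable (fun n : ℤ => GG t w * EN t w n) := by
    have := hs.mul_left (cexp (-Real.pi * I * z ^ 2 / τ))
    refine this.congr (fun n => ?_)
    exact e2 n
  refine ⟨?_, ?_⟩
  · have := hs2.mul_left (GG t w)⁻¹
    refine this.congr (fun n => ?_)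
    rw [← mul_assoc, inv_mul_cancel₀ hG, one_mul]
  · have e4 : cexp (-Real.pi * I * z ^ 2 / τ) * jacobiTheta₂ (z / τ) (-1 / τ) =
        GG t w * ∑' n : ℤ, EN t w n := by
      unfold jacobiTheta₂
      rw [← tsum_mul_left, ← tsum_mul_left]
      exact tsum_congr e2
    rw [e1, jacobiTheta₂_functional_equation, e3, mul_assoc, e4, mul_assoc]

/-! ### the remainder -/

theorem tt_eq (t0 v : ℝ) : tt t0 (t0 * v) = (t0 : ℂ) * (1 + (v : ℂ) * I) := by
  unfold tt; push_cast; ring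

theorem re_div_tt {t0 v : ℝ} (h0 : 0 < t0) (x : ℝ) :
    ((x : ℂ) / tt t0 (t0 * v)).re = x * (1 / (t0 * (1 + v ^ 2))) := by
  rw [div_eq_mul_inv, Complex.re_ofReal_mul, tt_inv h0]

theorem EN_norm {t0 v φ κ : ℝ} (h0 : 0 < t0) (n : ℤ) :
    ‖EN (tt t0 (t0 * v)) (ww κ (tt t0 (t0 * v)) φ) n‖ =
      Real.exp (1 / (t0 * (1 + v ^ 2)) * (-(((2 * n - 1 : ℤ) : ℝ) ^ 2 - 1) * Real.pi ^ 2 / 2 +
        ((2 * n - 1 : ℤ) : ℝ) * Real.pi * φ)) := by
  set t := tt t0 (t0 * v) with ht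
  have ht0 : t ≠ 0 := by
    intro h
    have : t.re = t0 := tt_re _ _
    rw [h] at this
    simp at this
    linarith
  unfold EN
  rw [Complex.norm_exp]
  congr 1
  set a : ℤ := 2 * n - 1
  have e : -(((a : ℂ) ^ 2 - 1) * (Real.pi : ℂ) ^ 2 / (2 * t)) +
      (a : ℂ) * Real.pi * ww κ t φ / t - I * (a : ℂ) * Real.pi / 2 =
      ((-(((a : ℝ)) ^ 2 - 1) * Real.pi ^ 2 / 2 + (a : ℝ) * Real.pi * φ : ℝ) : ℂ) / t +
      ((-(a : ℝ) * Real.pi * κ - (a : ℝ) * Real.pi / 2 : ℝ) : ℂ) * I := by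
    unfold ww
    push_cast
    field_simp
    ring
  rw [e, Complex.add_re, ht, re_div_tt h0, Complex.re_ofReal_mul, Complex.I_re, mul_zero, add_zero]
  ring

/-- the bound of the terms, `k = |n'|` -/
theorem EN_bd {t0 v φ κ : ℝ} (h0 : 0 < t0) (h1 : t0 ≤ 1 / 50) (hv : |v| ≤ 3)
    (hφ : |φ| ≤ Real.pi) (k : ℕ) (n : ℤ) (hn : n = k + 2 ∨ n = -((k : ℤ) + 1)) :
    ‖EN (tt t0 (t0 * v)) (ww κ (tt t0 (t0 * v)) φ) n‖ ≤
      Real.exp (Real.pi * |φ| * (1 / (t0 * (1 + v ^ 2)))) * (1 / 2000000 * (1 / 2 : ℝ) ^ k) := by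
  rw [EN_norm h0]
  set X : ℝ := 1 / (t0 * (1 + v ^ 2)) with hX
  have hX5 : 5 ≤ X := re_inv_bound h0 h1 hv
  have hpi := Real.pi_gt_three
  have hpi0 := Real.pi_pos
  set a : ℝ := ((2 * n - 1 : ℤ) : ℝ) with ha
  set K : ℝ := (k : ℝ) + 1 with hK
  have hk0 : (0 : ℝ) ≤ k := Nat.cast_nonneg k
  have habs : |a| = 2 * K + 1 := by
    rcases hn with hn | hn
    · rw [ha, hn]
      have : ((2 * ((k : ℤ) + 2) - 1 : ℤ) : ℝ) = 2 * K + 1 := by
        rw [hK]; push_cast; ring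
      rw [this, abs_of_pos (by rw [hK]; positivity)]
    · rw [ha, hn]
      have : ((2 * (-((k : ℤ) + 1)) - 1 : ℤ) : ℝ) = -(2 * K + 1) := by
        rw [hK]; push_cast; ring
      rw [this, abs_neg, abs_of_pos (by rw [hK]; positivity)]
  have ha2 : a ^ 2 = (2 * K + 1) ^ 2 := by rw [← habs, sq_abs]
  have h2 : a * Real.pi * φ ≤ (2 * K + 1) * (Real.pi * |φ|) := by
    calc a * Real.pi * φ ≤ |a * Real.pi * φ| := le_abs_self _
      _ = (2 * K + 1) * (Real.pi * |φ|) := by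
        rw [abs_mul, abs_mul, habs, abs_of_pos hpi0]; ring
  have h3 : Real.pi * |φ| ≤ Real.pi ^ 2 := by nlinarith [abs_nonneg φ]
  have h4 : -(a ^ 2 - 1) * Real.pi ^ 2 / 2 + a * Real.pi * φ ≤ Real.pi * |φ| - 2 * Real.pi ^ 2 * K := by
    rw [ha2]
    have hK1 : 1 ≤ K := by rw [hK]; linarith
    have h5 : 2 * K * (Real.pi * |φ|) ≤ 2 * K * Real.pi ^ 2 :=
      mul_le_mul_of_nonneg_left h3 (by linarith)
    have h6 : K * Real.pi ^ 2 ≤ K ^ 2 * Real.pi ^ 2 := by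
      apply mul_le_mul_of_nonneg_right _ (sq_nonneg _)
      nlinarith
    nlinarith
  have h5 : X * (-(a ^ 2 - 1) * Real.pi ^ 2 / 2 + a * Real.pi * φ) ≤
      Real.pi * |φ| * X + -((90 * (k + 1) : ℕ) : ℝ) := by
    have h6 := mul_le_mul_of_nonneg_left h4 (by linarith : (0 : ℝ) ≤ X)
    have h7 : 90 * K ≤ X * (2 * Real.pi ^ 2 * K) := by
      have h8 : 9 ≤ Real.pi ^ 2 := by nlinarith
      have hK1 : 0 ≤ K := by rw [hK]; linarith
      have h9 : 5 * (2 * 9 * K) ≤ X * (2 * Real.pi ^ 2 * K) := by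
        apply mul_le_mul hX5 _ (by positivity) (by linarith)
        apply mul_le_mul_of_nonneg_right _ hK1
        linarith
      linarith
    have h8 : ((90 * (k + 1) : ℕ) : ℝ) = 90 * K := by rw [hK]; push_cast; ring
    rw [h8]
    linarith
  refine (Real.exp_le_exp.2 h5).trans ?_
  rw [Real.exp_add]
  refine mul_le_mul_of_nonneg_left ?_ (Real.exp_pos _).le
  refine (exp_neg_le_half _).trans ?_
  have h6 : ((1 : ℝ) / 2) ^ (90 * (k + 1)) = ((1 / 2 : ℝ) ^ 90) ^ (k + 1) := by rw [pow_mul]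
  rw [h6, pow_succ']
  apply mul_le_mul (by norm_num) _ (by positivity) (by norm_num)
  exact pow_le_pow_left₀ (by positivity) (by norm_num) k

theorem rem_bd {t0 v φ κ : ℝ} (h0 : 0 < t0) (h1 : t0 ≤ 1 / 50) (hv : |v| ≤ 3)
    (hφ : |φ| ≤ Real.pi) : ∃ R : ℂ,
    ∑' n : ℤ, EN (tt t0 (t0 * v)) (ww κ (tt t0 (t0 * v)) φ) n =
      -(2 * I * sinh ((Real.pi : ℂ) * ww κ (tt t0 (t0 * v)) φ / tt t0 (t0 * v))) + R ∧
    ‖R‖ ≤ Real.exp (Real.pi * |φ| * (1 / (t0 * (1 + v ^ 2)))) * (1 / 500000) := by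
  set t := tt t0 (t0 * v) with ht
  set w := ww κ t φ with hw
  have htr : 0 < t.re := by rw [ht, tt_re]; exact h0
  have hs := (theta_sum htr w).1
  set M : ℝ := Real.exp (Real.pi * |φ| * (1 / (t0 * (1 + v ^ 2)))) with hM
  have hsN : Summable (fun k : ℕ => EN t w (k : ℤ)) := hs.comp_injective Nat.cast_injective
  have hs2 : Summable (fun k : ℕ => EN t w ((k : ℤ) + 2)) := by
    have := (summable_nat_add_iff 2).2 hsN
    refine this.congr (fun k => ?_)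
    push_cast
    rfl
  have hs3 : Summable (fun k : ℕ => EN t w (-((k : ℤ) + 1))) := by
    refine hs.comp_injective (i := fun k : ℕ => -((k : ℤ) + 1)) ?_
    intro a b hab
    simp only at hab
    omega
  have e0 : ∑' n : ℤ, EN t w n = (∑' k : ℕ, EN t w (k : ℤ)) + ∑' k : ℕ, EN t w (-((k : ℤ) + 1)) :=
    tsum_of_nat_of_neg_add_one hsN hs3
  have e1 : ∑' k : ℕ, EN t w (k : ℤ) = EN t w 0 + EN t w 1 + ∑' k : ℕ, EN t w ((k : ℤ) + 2) := by
    rw [← hsN.sum_add_tsum_nat_add 2]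
    simp [Finset.sum_range_succ]
  refine ⟨(∑' k : ℕ, EN t w ((k : ℤ) + 2)) + ∑' k : ℕ, EN t w (-((k : ℤ) + 1)), ?_, ?_⟩
  · rw [e0, e1, EN_zero, EN_one]
    rw [Complex.sinh]
    ring
  · have hg : HasSum (fun k : ℕ => M * (1 / 2000000 * (1 / 2 : ℝ) ^ k)) (M * (1 / 2000000 * 2)) :=
      (hasSum_geometric_two.mul_left _).mul_left _
    have b1 := tsum_of_norm_bounded hg (fun k => EN_bd (κ := κ) h0 h1 hv hφ k ((k : ℤ) + 2)
      (Or.inl rfl))
    have b2 := tsum_of_norm_bounded hg (fun k => EN_bd (κ := κ) h0 h1 hv hφ k (-((k : ℤ) + 1))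
      (Or.inr rfl))
    refine (norm_add_le _ _).trans ?_
    refine (add_le_add b1 b2).trans (le_of_eq ?_)
    ring

theorem sinh_shift {κ : ℝ} (hκ : κ = 1 / 2 ∨ κ = 3 / 2) (x : ℂ) :
    ‖sinh (x - I * κ * Real.pi)‖ = ‖cosh x‖ ∧
    sinh (x - I * κ * Real.pi) = (vs κ)⁻¹ * cosh x := by
  have h : sinh (x - I * κ * Real.pi) = (vs κ)⁻¹ * cosh x := by
    rw [Complex.sinh_sub]
    rcases hκ with h | h
    · subst h
      have e : I * ((1 / 2 : ℝ) : ℂ) * Real.pi = (Real.pi / 2 : ℂ) * I := by push_cast; ring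
      rw [e, Complex.cosh_mul_I, Complex.sinh_mul_I, Complex.cos_pi_div_two,
        Complex.sin_pi_div_two]
      unfold vs
      rw [if_pos rfl, Complex.inv_I]
      ring
    · subst h
      have e : I * ((3 / 2 : ℝ) : ℂ) * Real.pi = ((Real.pi / 2 : ℂ) + Real.pi) * I := by
        push_cast; ring
      rw [e, Complex.cosh_mul_I, Complex.sinh_mul_I, Complex.cos_add_pi, Complex.sin_add_pi,
        Complex.cos_pi_div_two, Complex.sin_pi_div_two]
      unfold vs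
      rw [if_neg (by norm_num), inv_neg, Complex.inv_I]
      ring
  refine ⟨?_, h⟩
  rw [h, norm_mul, norm_inv]
  have : ‖vs κ‖ = 1 := by
    unfold vs
    split_ifs <;> simp
  rw [this, inv_one, one_mul]

theorem pi_w_div {t0 v φ κ : ℝ} (h0 : 0 < t0) :
    (Real.pi : ℂ) * ww κ (tt t0 (t0 * v)) φ / tt t0 (t0 * v) =
      (Real.pi : ℂ) * ((φ / t0 : ℝ) : ℂ) / (1 + (v : ℂ) * I) - I * κ * Real.pi := by
  have ht : tt t0 (t0 * v) ≠ 0 := by
    intro h
    have h2 : (tt t0 (t0 * v)).re = t0 := tt_re _ _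
    rw [h] at h2
    simp at h2
    linarith
  have h0' : (t0 : ℂ) ≠ 0 := by exact_mod_cast h0.ne'
  have h1 : (1 + (v : ℂ) * I) ≠ 0 := by
    intro h
    apply ht
    rw [tt_eq, h, mul_zero]
  have h2 : (1 + I * (v : ℂ)) ≠ 0 := by rw [mul_comm]; exact h1
  unfold ww
  rw [tt_eq]
  push_cast
  field_simp

theorem zeta_cond {t0 θ φ κ : ℝ} (h0 : 0 < t0) (hκ : κ = 1 / 2 ∨ κ = 3 / 2) :
    (∀ j : ℕ, cexp (I * ww κ (tt t0 θ) φ) * cexp (-tt t0 θ) ^ (j + 1) ≠ 1) ∧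
    (∀ j : ℕ, (cexp (I * ww κ (tt t0 θ) φ))⁻¹ * cexp (-tt t0 θ) ^ (j + 1) ≠ 1) := by
  have hre : (I * ww κ (tt t0 θ) φ).re = κ * t0 := by
    unfold ww
    rw [mul_sub, Complex.sub_re]
    have e : I * (I * (κ : ℂ) * tt t0 θ) = -((κ : ℂ) * tt t0 θ) := by
      linear_combination ((κ : ℂ) * tt t0 θ) * Complex.I_mul_I
    rw [e, Complex.neg_re, Complex.re_ofReal_mul, tt_re]
    simp
  constructor
  · intro j h
    have h2 := congrArg norm h
    rw [norm_mul, norm_pow, Complex.norm_exp, Complex.norm_exp, norm_one, hre, Complex.neg_re,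
      tt_re, ← Real.exp_nat_mul, ← Real.exp_add, Real.exp_eq_one_iff] at h2
    have h3 : (κ - (j + 1)) * t0 = 0 := by push_cast at h2; linarith
    rcases mul_eq_zero.1 h3 with h4 | h4
    · rcases hκ with hκ | hκ
      · rw [hκ] at h4
        have h5 : (0 : ℝ) ≤ j := Nat.cast_nonneg j
        linarith
      · rw [hκ] at h4
        have h5 : (2 * j + 2 : ℝ) = 3 := by linarith
        have h6 : 2 * j + 2 = 3 := by exact_mod_cast h5
        omega
    · linarith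
  · intro j h
    have h2 := congrArg norm h
    rw [norm_mul, norm_inv, norm_pow, Complex.norm_exp, Complex.norm_exp, norm_one, hre,
      Complex.neg_re, tt_re, ← Real.exp_nat_mul, ← Real.exp_neg, ← Real.exp_add,
      Real.exp_eq_one_iff] at h2
    have h5 : (0 : ℝ) ≤ j := Nat.cast_nonneg j
    have hκ0 : 0 < κ := by rcases hκ with h | h <;> rw [h] <;> norm_num
    push_cast at h2
    have h6 : 0 < κ * t0 := mul_pos hκ0 h0
    nlinarith

theorem sqrt_id {t : ℂ} (ht : 0 < t.re) :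
    (t / (2 * Real.pi)) ^ (1 / 2 : ℂ) * Complex.sqrt I =
      Complex.sqrt (I * t / (2 * Real.pi)) := by
  have hpi := Real.pi_pos
  unfold Complex.sqrt
  have e : (I * t / (2 * Real.pi) : ℂ) = (t / (2 * Real.pi)) * I := by ring
  rw [e, one_div]
  set x : ℂ := t / (2 * Real.pi) with hx
  have hxr : 0 < x.re := by
    have e2 : x = t / ((2 * Real.pi : ℝ) : ℂ) := by rw [hx]; push_cast; ring
    rw [e2, Complex.div_ofReal_re]
    positivity
  have hx0 : x ≠ 0 := by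
    intro h; rw [h] at hxr; simp at hxr
  have harg : |x.arg| < Real.pi / 2 := Complex.abs_arg_lt_pi_div_two_iff.2 (Or.inl hxr)
  have harg2 := abs_lt.1 harg
  have hlog : Complex.log (x * I) = Complex.log x + Complex.log I := by
    rw [Complex.log_mul_eq_add_log_iff hx0 Complex.I_ne_zero, Complex.arg_I]
    constructor <;> linarith
  rw [Complex.cpow_def_of_ne_zero hx0, Complex.cpow_def_of_ne_zero Complex.I_ne_zero,
    Complex.cpow_def_of_ne_zero (mul_ne_zero hx0 Complex.I_ne_zero), hlog, ← Complex.exp_add]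
  congr 1
  ring

theorem one_sub_exp (w : ℂ) : 1 - cexp (I * w) = -(2 * I * sin (w / 2)) * cexp (I * w / 2) := by
  rw [Complex.sin]
  have e : cexp (I * w) = cexp (I * w / 2) * cexp (I * w / 2) := by
    rw [← Complex.exp_add]; congr 1; ring
  have e2 : cexp (-(w / 2) * I) = (cexp (I * w / 2))⁻¹ := by
    rw [← Complex.exp_neg]; congr 1; ring
  have e3 : cexp (w / 2 * I) = cexp (I * w / 2) := by congr 1; ring
  rw [e, e2, e3]
  have := Complex.exp_ne_zero (I * w / 2)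
  field_simp
  linear_combination (1 - cexp (I * w / 2) ^ 2) * Complex.I_sq

theorem eps_bound {y δ : ℂ} (hy : ‖y - 1‖ ≤ 1 / 200000) (hδ : ‖δ‖ ≤ 1 / 100000) :
    1 + δ ≠ 0 ∧ ‖y / (1 + δ) - 1‖ ≤ 1 / 1000 := by
  have h1 : 1 - 1 / 100000 ≤ ‖1 + δ‖ := by
    have h2 : ‖(1 : ℂ)‖ ≤ ‖1 + δ‖ + ‖δ‖ := by
      have e : (1 : ℂ) = (1 + δ) - δ := by ring
      calc ‖(1 : ℂ)‖ = ‖(1 + δ) - δ‖ := by rw [← e]
        _ ≤ ‖1 + δ‖ + ‖δ‖ := norm_sub_le _ _
    rw [norm_one] at h2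
    linarith
  have h0 : 1 + δ ≠ 0 := by
    intro h; rw [h, norm_zero] at h1; norm_num at h1
  refine ⟨h0, ?_⟩
  have e : y / (1 + δ) - 1 = ((y - 1) - δ) / (1 + δ) := by
    field_simp
    ring
  rw [e, norm_div, div_le_iff₀ (by linarith)]
  have h3 := norm_sub_le (y - 1) δ
  linarith

theorem theta (hT : TripleStatement) (hCB : CbStatement) : ThetaStatement := by
  intro t0 v φ κ h0 h1 hv hφ hκ t w ht hw
  have htr : 0 < t.re := by rw [ht, tt_re]; exact h0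
  have ht0 : t ≠ 0 := by
    intro h; rw [h] at htr; simp at htr
  have hpi : (Real.pi : ℂ) ≠ 0 := by exact_mod_cast Real.pi_ne_zero
  have hpi0 := Real.pi_pos
  obtain ⟨hc1, hc2⟩ := zeta_cond (θ := t0 * v) (φ := φ) h0 hκ
  rw [← ht, ← hw] at hc1 hc2
  have hq := exp_neg_norm_lt htr
  have h3 := (hT (cexp (-t)) (cexp (I * w)) (Complex.exp_ne_zero _) hq
    (Complex.exp_ne_zero _) hc1 hc2).tsum_eq
  have h4 := (theta_sum htr w).2
  obtain ⟨R, hR1, hR2⟩ := rem_bd (κ := κ) h0 h1 hv hφ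
  rw [← ht, ← hw] at hR1
  have h5 : QP (cexp (-t)) * (1 - cexp (I * w)) * (Cp (cexp (-t)) (cexp (I * w)))⁻¹ =
      1 / (t / (2 * Real.pi)) ^ (1 / 2 : ℂ) * GG t w *
        (-(2 * I * sinh ((Real.pi : ℂ) * w / t)) + R) := by
    rw [← hR1, ← h4, ← h3]
    rfl
  -- the main part
  have hsh := sinh_shift hκ ((Real.pi : ℂ) * ((φ / t0 : ℝ) : ℂ) / (1 + (v : ℂ) * I))
  have hpw := pi_w_div (v := v) (φ := φ) (κ := κ) h0
  rw [← ht, ← hw] at hpw
  rw [← hpw] at hsh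
  have hcb := (hCB (φ / t0) v).1 hv
  set M : ℝ := Real.exp (Real.pi * |φ| * (1 / (t0 * (1 + v ^ 2)))) with hM
  have hMe : Real.exp (Real.pi * |φ / t0| / (1 + v ^ 2)) = M := by
    rw [hM]
    congr 1
    rw [abs_div, abs_of_pos h0]
    have : 0 < 1 + v ^ 2 := by positivity
    field_simp
  rw [hMe, ← hsh.1] at hcb
  have hM0 : 0 < M := Real.exp_pos _
  have hS0 : sinh ((Real.pi : ℂ) * w / t) ≠ 0 := by
    intro h
    rw [h, norm_zero] at hcb
    nlinarith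
  set S : ℂ := sinh ((Real.pi : ℂ) * w / t) with hS
  set δ : ℂ := R / (-(2 * I * S)) with hδ
  have hIS : -(2 * I * S) ≠ 0 := by
    refine neg_ne_zero.2 (mul_ne_zero (mul_ne_zero two_ne_zero Complex.I_ne_zero) hS0)
  have hδ1 : ‖δ‖ ≤ 1 / 100000 := by
    rw [hδ, norm_div, norm_neg, norm_mul, norm_mul, Complex.norm_I, Complex.norm_ofNat]
    rw [div_le_iff₀ (by positivity)]
    nlinarith
  have hy : ‖QP (QQ t) - 1‖ ≤ 1 / 200000 := by
    refine QP_sub_one ?_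
    rw [ht]; exact QQ_norm h0 h1 hv
  obtain ⟨hδ0, hε⟩ := eps_bound hy hδ1
  refine ⟨QP (QQ t) / (1 + δ) - 1, hε, ?_⟩
  rw [add_sub_cancel]
  have hR : -(2 * I * S) + R = -(2 * I * S) * (1 + δ) := by
    rw [hδ]; field_simp; ring
  rw [hR] at h5
  have hC0 : Cp (cexp (-t)) (cexp (I * w)) ≠ 0 := by
    rw [Cp_eq _ _ hq hc1 hc2]
    exact inv_ne_zero (mul_ne_zero (PP_ne _ _ hq hc1) (PP_ne _ _ hq hc2))
  have hroot := sqrt_id htr
  have htrans := QP_trans htr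
  have hsI : Complex.sqrt I ≠ 0 := by
    unfold Complex.sqrt
    rw [Ne, Complex.cpow_eq_zero_iff]
    rintro ⟨h, -⟩
    exact Complex.I_ne_zero h
  have hx0 : (t / (2 * Real.pi)) ≠ 0 := by
    refine div_ne_zero ht0 (mul_ne_zero two_ne_zero hpi)
  have hr0 : (t / (2 * Real.pi)) ^ (1 / 2 : ℂ) ≠ 0 := by
    rw [Ne, Complex.cpow_eq_zero_iff]
    rintro ⟨h, -⟩
    exact hx0 h
  set r : ℂ := (t / (2 * Real.pi)) ^ (1 / 2 : ℂ) with hr
  have hq2 : cexp (-((Real.pi : ℂ) ^ 2 / (6 * t))) * QP (QQ t) =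
      r * (cexp (-(t / 24)) * QP (cexp (-t))) := by
    rw [htrans, ← hroot]
    field_simp
  -- solve
  have h6 : QP (cexp (-t)) * (1 - cexp (I * w)) =
      1 / r * GG t w * (-(2 * I * S) * (1 + δ)) * Cp (cexp (-t)) (cexp (I * w)) := by
    rw [← h5]
    field_simp
  have h7 : QP (cexp (-t)) = cexp (t / 24) * cexp (-((Real.pi : ℂ) ^ 2 / (6 * t))) *
      QP (QQ t) / r := by
    have e : cexp (t / 24) * cexp (-(t / 24)) = 1 := by
      rw [← Complex.exp_add, add_neg_cancel, Complex.exp_zero]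
    rw [mul_assoc, hq2]
    calc QP (cexp (-t)) = (cexp (t / 24) * cexp (-(t / 24))) * QP (cexp (-t)) := by
          rw [e, one_mul]
      _ = cexp (t / 24) * (r * (cexp (-(t / 24)) * QP (cexp (-t)))) / r := by
          field_simp
  have hG : cexp ((Real.pi : ℂ) ^ 2 / (3 * t) - t / 12 + w ^ 2 / (2 * t)) * GG t w =
      cexp (t / 24) * cexp (-((Real.pi : ℂ) ^ 2 / (6 * t))) * cexp (I * w / 2) := by
    unfold GG
    rw [← Complex.exp_add, ← Complex.exp_add, ← Complex.exp_add]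
    congr 1
    field_simp
    ring
  have hG0 : GG t w ≠ 0 := Complex.exp_ne_zero _
  have hkey : cexp ((Real.pi : ℂ) ^ 2 / (3 * t) - t / 12 + w ^ 2 / (2 * t)) * sin (w / 2) / S *
      (QP (QQ t) / (1 + δ)) * (1 / r * GG t w * (-(2 * I * S) * (1 + δ))) =
      QP (cexp (-t)) * (1 - cexp (I * w)) := by
    rw [one_sub_exp, h7]
    calc cexp ((Real.pi : ℂ) ^ 2 / (3 * t) - t / 12 + w ^ 2 / (2 * t)) * sin (w / 2) / S *
          (QP (QQ t) / (1 + δ)) * (1 / r * GG t w * (-(2 * I * S) * (1 + δ)))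
        = (cexp ((Real.pi : ℂ) ^ 2 / (3 * t) - t / 12 + w ^ 2 / (2 * t)) * GG t w) *
          (sin (w / 2) * QP (QQ t) / r * (-(2 * I))) := by
          field_simp
      _ = _ := by
          rw [hG]
          ring
  have hfac : (1 / r * GG t w * (-(2 * I * S) * (1 + δ))) ≠ 0 :=
    mul_ne_zero (mul_ne_zero (one_div_ne_zero hr0) hG0) (mul_ne_zero hIS hδ0)
  apply mul_right_cancel₀ hfac
  rw [hkey, h6]
  ring

end Pool.Agent.Helper21_UR.H97
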