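import Pool.Agent.Helper21_UR.Stmts

/-! # UR, module TRIPLE: the Jacobi triple product -/

namespace Pool.Agent.Helper21_UR.H97

open Complex Filter Topology

/-! ### infinite products -/

theorem summ (q x : ℂ) (hq : ‖q‖ < 1) : Summable (fun j : ℕ => ‖-(x * q ^ (j + 1))‖) := by
  have h := ((summable_nat_add_iff 1).mpr (summable_geometric_of_lt_one (norm_nonneg q) hq)).mul_left
    ‖x‖
  refine h.congr (fun j => ?_)
  rw [norm_neg, norm_mul, norm_pow]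

theorem mult_one_sub (q x : ℂ) (hq : ‖q‖ < 1) :
    Multipliable (fun j : ℕ => 1 - x * q ^ (j + 1)) := by
  have h := multipliable_one_add_of_summable (f := fun j : ℕ => -(x * q ^ (j + 1)))
    (summ q x hq)
  refine h.congr (fun j => ?_)
  ring

/-- `(x q; q)_∞` -/
noncomputable def PP (q x : ℂ) : ℂ := ∏' j : ℕ, (1 - x * q ^ (j + 1))

theorem PP_ne (q x : ℂ) (hq : ‖q‖ < 1) (h : ∀ j : ℕ, x * q ^ (j + 1) ≠ 1) : PP q x ≠ 0 := by
  have h2 := tprod_one_add_ne_zero_of_summable (f := fun j : ℕ => -(x * q ^ (j + 1))) ?_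
    (summ q x hq)
  · have e : PP q x = ∏' j : ℕ, (1 + -(x * q ^ (j + 1))) := by
      unfold PP
      refine tprod_congr (fun j => ?_)
      ring
    rw [e]
    exact h2
  · intro j h3
    apply h j
    have : x * q ^ (j + 1) = 1 - (1 + -(x * q ^ (j + 1))) := by ring
    rw [this, h3, sub_zero]

theorem PP_tendsto (q x : ℂ) (hq : ‖q‖ < 1) :
    Tendsto (fun N : ℕ => ∏ j ∈ Finset.range N, (1 - x * q ^ (j + 1))) atTop (𝓝 (PP q x)) :=
  (mult_one_sub q x hq).hasProd.tendsto_prod_nat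

theorem Cp_hasProd (q ζ : ℂ) (hq : ‖q‖ < 1) (h1 : ∀ j : ℕ, ζ * q ^ (j + 1) ≠ 1)
    (h2 : ∀ j : ℕ, ζ⁻¹ * q ^ (j + 1) ≠ 1) :
    HasProd (fun j : ℕ => ((1 - ζ * q ^ (j + 1)) * (1 - ζ⁻¹ * q ^ (j + 1)))⁻¹)
      (PP q ζ * PP q ζ⁻¹)⁻¹ :=
  ((mult_one_sub q ζ hq).hasProd.mul (mult_one_sub q ζ⁻¹ hq).hasProd).inv₀
    (mul_ne_zero (PP_ne q ζ hq h1) (PP_ne q ζ⁻¹ hq h2))

theorem Cp_eq (q ζ : ℂ) (hq : ‖q‖ < 1) (h1 : ∀ j : ℕ, ζ * q ^ (j + 1) ≠ 1)
    (h2 : ∀ j : ℕ, ζ⁻¹ * q ^ (j + 1) ≠ 1) : Cp q ζ = (PP q ζ * PP q ζ⁻¹)⁻¹ :=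
  (Cp_hasProd q ζ hq h1 h2).tprod_eq

theorem QP_eq (q : ℂ) : QP q = PP q 1 := by
  unfold QP PP
  refine tprod_congr (fun j => ?_)
  ring

theorem pow_ne_one' {q : ℂ} (hq : ‖q‖ < 1) (j : ℕ) : q ^ (j + 1) ≠ 1 := by
  intro h
  have h2 : ‖q ^ (j + 1)‖ < 1 := by
    rw [norm_pow]
    exact pow_lt_one₀ (norm_nonneg _) hq (by omega)
  rw [h, norm_one] at h2
  exact lt_irrefl _ h2

theorem QP_ne (q : ℂ) (hq : ‖q‖ < 1) : QP q ≠ 0 := by
  rw [QP_eq]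
  refine PP_ne q 1 hq (fun j => ?_)
  rw [one_mul]
  exact pow_ne_one' hq j

theorem qp_tendsto (q : ℂ) (hq : ‖q‖ < 1) : Tendsto (qp q) atTop (𝓝 (QP q)) := by
  rw [QP_eq]
  refine (PP_tendsto q 1 hq).congr (fun N => ?_)
  unfold qp
  refine Finset.prod_congr rfl (fun j _ => ?_)
  ring

theorem qp_ne (q : ℂ) (hq : ‖q‖ < 1) (n : ℕ) : qp q n ≠ 0 := by
  unfold qp
  refine Finset.prod_ne_zero_iff.2 (fun j _ => ?_)
  exact sub_ne_zero.2 (pow_ne_one' hq j).symm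

theorem qp_bound (q : ℂ) (hq : ‖q‖ < 1) : ∃ C : ℝ, 0 ≤ C ∧ ∀ n m k : ℕ,
    ‖qp q n / (qp q m * qp q k)‖ ≤ C := by
  obtain ⟨A, hA⟩ := ((qp_tendsto q hq).norm).bddAbove_range
  obtain ⟨B, hB⟩ := (((qp_tendsto q hq).inv₀ (QP_ne q hq)).norm).bddAbove_range
  have hA' : ∀ n, ‖qp q n‖ ≤ A := fun n => hA ⟨n, rfl⟩
  have hB' : ∀ n, ‖(qp q n)⁻¹‖ ≤ B := fun n => hB ⟨n, rfl⟩
  have hA0 : 0 ≤ A := (norm_nonneg _).trans (hA' 0)
  have hB0 : 0 ≤ B := (norm_nonneg _).trans (hB' 0)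
  refine ⟨A * (B * B), by positivity, fun n m k => ?_⟩
  rw [div_eq_mul_inv, mul_inv, norm_mul, norm_mul]
  exact mul_le_mul (hA' n) (mul_le_mul (hB' m) (hB' k) (norm_nonneg _) hB0) (by positivity) hA0

/-! ### the terms -/

/-- terms of the theta series -/
noncomputable def TT (q ζ : ℂ) (n : ℤ) : ℂ := (-1 : ℂ) ^ n * q ^ (n * (n - 1) / 2) * ζ ^ n

theorem tri_cast (n : ℤ) : ((n * (n - 1) / 2 : ℤ) : ℂ) = (n : ℂ) * (n - 1) / 2 := by
  have h : (2 : ℤ) ∣ n * (n - 1) := (Int.even_mul_pred_self n).two_dvd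
  rw [Int.cast_div h (by norm_num)]
  push_cast
  ring

theorem TT_eq (n : ℤ) (a b : ℂ) : TT (cexp a) (cexp b) n =
    jacobiTheta₂_term n (1 / 2 - a / (4 * Real.pi * I) + b / (2 * Real.pi * I))
      (a / (2 * Real.pi * I)) := by
  have hpi : (Real.pi : ℂ) ≠ 0 := by exact_mod_cast Real.pi_ne_zero
  unfold TT jacobiTheta₂_term
  rw [← Complex.exp_int_mul, ← Complex.exp_int_mul, tri_cast]
  have e : (-1 : ℂ) ^ n = cexp (n * (Real.pi * I)) := by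
    rw [Complex.exp_int_mul, Complex.exp_pi_mul_I]
  rw [e, ← Complex.exp_add, ← Complex.exp_add]
  congr 1
  field_simp
  ring

theorem TT_summable (q ζ : ℂ) (hq0 : q ≠ 0) (hq : ‖q‖ < 1) (hζ : ζ ≠ 0) :
    Summable (TT q ζ) := by
  have e : TT q ζ = TT (cexp (Complex.log q)) (cexp (Complex.log ζ)) := by
    rw [Complex.exp_log hq0, Complex.exp_log hζ]
  rw [e]
  have e2 : TT (cexp (Complex.log q)) (cexp (Complex.log ζ)) = fun n => jacobiTheta₂_term n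
      (1 / 2 - Complex.log q / (4 * Real.pi * I) + Complex.log ζ / (2 * Real.pi * I))
      (Complex.log q / (2 * Real.pi * I)) := by
    funext n
    exact TT_eq n _ _
  rw [e2, summable_jacobiTheta₂_term_iff]
  have e3 : Complex.log q / (2 * Real.pi * I) = -(Complex.log q / (2 * Real.pi) : ℂ) * I := by
    rw [div_mul_eq_div_div, Complex.div_I]
    ring
  have e4 : (-(Complex.log q / (2 * Real.pi) : ℂ) * I).im = -(Real.log ‖q‖ / (2 * Real.pi)) := by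
    have e5 : (Complex.log q / (2 * Real.pi) : ℂ) = Complex.log q / ((2 * Real.pi : ℝ) : ℂ) := by
      push_cast; ring
    rw [Complex.mul_I_im, Complex.neg_re, e5, Complex.div_ofReal_re, Complex.log_re]
  rw [e3, e4]
  have h1 : Real.log ‖q‖ < 0 := Real.log_neg (norm_pos_iff.2 hq0) hq
  have hpi := Real.pi_pos
  rw [← neg_div]
  apply div_pos (by linarith) (by positivity)

/-! ### the finite identity -/

theorem prod_K (q ζ : ℂ) (hq0 : q ≠ 0) (N : ℕ) :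
    ∏ l ∈ Finset.range N, (-(ζ * (q ^ (l + 1))⁻¹)) =
      (-1 : ℂ) ^ N * ζ ^ N * q ^ (-((N : ℤ) * (N + 1) / 2)) := by
  induction N with
  | zero => simp
  | succ N ih =>
    rw [Finset.prod_range_succ, ih]
    have h : -(((N + 1 : ℕ) : ℤ) * (((N + 1 : ℕ) : ℤ) + 1) / 2) =
        -((N : ℤ) * (N + 1) / 2) - ((N + 1 : ℕ) : ℤ) := by
      have h1 : 2 * ((N : ℤ) * (N + 1) / 2) = (N : ℤ) * (N + 1) :=
        Int.mul_ediv_cancel' (Int.even_mul_succ_self N).two_dvd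
      have h2 : 2 * (((N + 1 : ℕ) : ℤ) * (((N + 1 : ℕ) : ℤ) + 1) / 2) =
          ((N + 1 : ℕ) : ℤ) * (((N + 1 : ℕ) : ℤ) + 1) :=
        Int.mul_ediv_cancel' (Int.even_mul_succ_self ((N + 1 : ℕ) : ℤ)).two_dvd
      push_cast at h2 ⊢
      nlinarith
    rw [h, zpow_sub₀ hq0, zpow_natCast]
    ring

theorem term_id (q ζ : ℂ) (hq0 : q ≠ 0) (hζ : ζ ≠ 0) (N j : ℕ) :
    (-1 : ℂ) ^ j * q ^ (j * (j - 1) / 2) * (ζ * (q ^ N)⁻¹) ^ j =
      ((-1 : ℂ) ^ N * ζ ^ N * q ^ (-((N : ℤ) * (N + 1) / 2))) * TT q ζ ((j : ℤ) - N) := by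
  unfold TT
  have h1 : 2 * ((N : ℤ) * (N + 1) / 2) = (N : ℤ) * (N + 1) :=
    Int.mul_ediv_cancel' (Int.even_mul_succ_self N).two_dvd
  have h2 : 2 * (((j : ℤ) - N) * ((j : ℤ) - N - 1) / 2) = ((j : ℤ) - N) * ((j : ℤ) - N - 1) :=
    Int.mul_ediv_cancel' (Int.even_mul_pred_self ((j : ℤ) - N)).two_dvd
  have h3 : ((j * (j - 1) / 2 : ℕ) : ℤ) = (j : ℤ) * (j - 1) / 2 := by
    rcases Nat.eq_zero_or_pos j with h | h
    · subst h; simp
    · push_cast [Nat.cast_sub h]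
      ring_nf
  have h4 : 2 * ((j : ℤ) * (j - 1) / 2) = (j : ℤ) * (j - 1) :=
    Int.mul_ediv_cancel' (Int.even_mul_pred_self (j : ℤ)).two_dvd
  have e1 : q ^ (j * (j - 1) / 2) = q ^ ((j : ℤ) * (j - 1) / 2) := by
    rw [← h3, zpow_natCast]
  have e2 : (ζ * (q ^ N)⁻¹) ^ j = ζ ^ j * q ^ (-((N : ℤ) * j)) := by
    rw [mul_pow, inv_pow, ← pow_mul, zpow_neg]
    congr 2
  have e3 : (j : ℤ) * (j - 1) / 2 + -((N : ℤ) * j) =
      -((N : ℤ) * (N + 1) / 2) + ((j : ℤ) - N) * ((j : ℤ) - N - 1) / 2 := by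
    nlinarith
  have e4 : q ^ ((j : ℤ) * (j - 1) / 2) * q ^ (-((N : ℤ) * j)) =
      q ^ (-((N : ℤ) * (N + 1) / 2)) * q ^ (((j : ℤ) - N) * ((j : ℤ) - N - 1) / 2) := by
    rw [← zpow_add₀ hq0, ← zpow_add₀ hq0, e3]
  have e5 : ζ ^ N * ζ ^ ((j : ℤ) - N) = ζ ^ j := by
    rw [← zpow_natCast ζ N, ← zpow_add₀ hζ, add_sub_cancel, zpow_natCast]
  have e6 : (-1 : ℂ) ^ N * (-1 : ℂ) ^ ((j : ℤ) - N) = (-1) ^ j := by
    rw [← zpow_natCast (-1 : ℂ) N, ← zpow_add₀ (by norm_num), add_sub_cancel, zpow_natCast]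
  rw [e1, e2]
  calc (-1 : ℂ) ^ j * q ^ ((j : ℤ) * (j - 1) / 2) * (ζ ^ j * q ^ (-((N : ℤ) * j)))
      = (-1 : ℂ) ^ j * ζ ^ j * (q ^ ((j : ℤ) * (j - 1) / 2) * q ^ (-((N : ℤ) * j))) := by ring
    _ = ((-1 : ℂ) ^ N * (-1 : ℂ) ^ ((j : ℤ) - N)) * (ζ ^ N * ζ ^ ((j : ℤ) - N)) *
        (q ^ (-((N : ℤ) * (N + 1) / 2)) * q ^ (((j : ℤ) - N) * ((j : ℤ) - N - 1) / 2)) := by
        rw [e4, e5, e6]
    _ = _ := by ring

theorem fin_triple (hQ : QbinStatement) (q ζ : ℂ) (hq0 : q ≠ 0) (hq : ‖q‖ < 1) (hζ : ζ ≠ 0)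
    (N : ℕ) :
    (∏ l ∈ Finset.range N, (1 - ζ * q ^ l)) * ∏ l ∈ Finset.range N, (1 - ζ⁻¹ * q ^ (l + 1)) =
      ∑ j ∈ Finset.range (2 * N + 1), TT q ζ ((j : ℤ) - N) *
        (qp q (2 * N) / (qp q j * qp q (2 * N - j))) := by
  have h := hQ q (ζ * (q ^ N)⁻¹) hq (2 * N)
  have e1 : ∀ j ∈ Finset.range (2 * N + 1),
      (-1 : ℂ) ^ j * q ^ (j * (j - 1) / 2) * (ζ * (q ^ N)⁻¹) ^ j *
        (qp q (2 * N) / (qp q j * qp q (2 * N - j))) =
      ((-1 : ℂ) ^ N * ζ ^ N * q ^ (-((N : ℤ) * (N + 1) / 2))) * (TT q ζ ((j : ℤ) - N) *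
        (qp q (2 * N) / (qp q j * qp q (2 * N - j)))) := by
    intro j _
    rw [term_id q ζ hq0 hζ]
    ring
  rw [Finset.sum_congr rfl e1, ← Finset.mul_sum, ← prod_K q ζ hq0] at h
  have e2 : ∏ l ∈ Finset.range (2 * N), (1 - ζ * (q ^ N)⁻¹ * q ^ l) =
      (∏ l ∈ Finset.range N, (-(ζ * (q ^ (l + 1))⁻¹))) *
      ((∏ l ∈ Finset.range N, (1 - ζ * q ^ l)) *
        ∏ l ∈ Finset.range N, (1 - ζ⁻¹ * q ^ (l + 1))) := by
    rw [two_mul, Finset.prod_range_add]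
    have e3 : ∀ l ∈ Finset.range N, (1 - ζ * (q ^ N)⁻¹ * q ^ (N + l)) = 1 - ζ * q ^ l := by
      intro l _
      rw [pow_add]
      have := pow_ne_zero N hq0
      field_simp
    rw [Finset.prod_congr rfl e3]
    have e4 : ∏ l ∈ Finset.range N, (1 - ζ * (q ^ N)⁻¹ * q ^ l) =
        ∏ l ∈ Finset.range N, (-(ζ * (q ^ (l + 1))⁻¹)) * (1 - ζ⁻¹ * q ^ (l + 1)) := by
      rw [← Finset.prod_range_reflect]
      refine Finset.prod_congr rfl (fun l hl => ?_)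
      have hl' := Finset.mem_range.1 hl
      have e5 : q ^ N = q ^ (N - 1 - l) * q ^ (l + 1) := by
        rw [← pow_add]; congr 1; omega
      rw [e5]
      have h1 := pow_ne_zero (N - 1 - l) hq0
      have h2 := pow_ne_zero (l + 1) hq0
      field_simp
      ring
    rw [e4, Finset.prod_mul_distrib]
    ring
  rw [e2] at h
  have hK : (∏ l ∈ Finset.range N, (-(ζ * (q ^ (l + 1))⁻¹))) ≠ 0 := by
    refine Finset.prod_ne_zero_iff.2 (fun l _ => ?_)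
    exact neg_ne_zero.2 (mul_ne_zero hζ (inv_ne_zero (pow_ne_zero _ hq0)))
  exact mul_left_cancel₀ hK h

/-! ### the limit -/

/-- truncated terms -/
noncomputable def fN (q ζ : ℂ) (N : ℕ) (n : ℤ) : ℂ :=
  if -(N : ℤ) ≤ n ∧ n ≤ N then TT q ζ n *
    (qp q (2 * N) / (qp q (n + N).toNat * qp q (N - n).toNat)) else 0

theorem fN_tsum (q ζ : ℂ) (N : ℕ) : ∑' n : ℤ, fN q ζ N n =
    ∑ j ∈ Finset.range (2 * N + 1), TT q ζ ((j : ℤ) - N) *
        (qp q (2 * N) / (qp q j * qp q (2 * N - j))) := by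
  have hinj : Function.Injective (fun j : ℕ => (j : ℤ) - N) := by
    intro a b hab
    simp only at hab
    omega
  rw [tsum_eq_sum (s := (Finset.range (2 * N + 1)).map ⟨fun j : ℕ => (j : ℤ) - N, hinj⟩)]
  · rw [Finset.sum_map]
    refine Finset.sum_congr rfl (fun j hj => ?_)
    have hj' := Finset.mem_range.1 hj
    simp only [Function.Embedding.coeFn_mk]
    unfold fN
    rw [if_pos (by constructor <;> omega)]
    have e1 : ((j : ℤ) - N + N).toNat = j := by omega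
    have e2 : ((N : ℤ) - ((j : ℤ) - N)).toNat = 2 * N - j := by omega
    rw [e1, e2]
  · intro n hn
    unfold fN
    rw [if_neg]
    rintro ⟨h1, h2⟩
    apply hn
    rw [Finset.mem_map]
    refine ⟨(n + N).toNat, Finset.mem_range.2 (by omega), ?_⟩
    simp only [Function.Embedding.coeFn_mk]
    omega

theorem triple (hQ : QbinStatement) : TripleStatement := by
  intro q ζ hq0 hq hζ h1 h2
  have hT := TT_summable q ζ hq0 hq hζ
  obtain ⟨C, hC, hb⟩ := qp_bound q hq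
  have hlim := tendsto_tsum_of_dominated_convergence (𝓕 := atTop) (f := fN q ζ)
    (g := fun n => TT q ζ n * (QP q / (QP q * QP q))) (bound := fun n => ‖TT q ζ n‖ * C)
    (hT.norm.mul_right C) (fun n => by
      have hev : ∀ᶠ N : ℕ in atTop, fN q ζ N n = TT q ζ n *
          (qp q (2 * N) / (qp q (n + N).toNat * qp q (N - n).toNat)) := by
        filter_upwards [eventually_ge_atTop n.natAbs] with N hN
        unfold fN
        rw [if_pos (by constructor <;> omega)]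
      refine Tendsto.congr' (hev.mono (fun N h => h.symm)) ?_
      have t1 : Tendsto (fun N : ℕ => 2 * N) atTop atTop := by
        refine tendsto_atTop_atTop.2 (fun b => ⟨b, fun a ha => by omega⟩)
      have t2 : Tendsto (fun N : ℕ => (n + N).toNat) atTop atTop := by
        refine tendsto_atTop_atTop.2 (fun b => ⟨b + n.natAbs, fun a ha => by omega⟩)
      have t3 : Tendsto (fun N : ℕ => ((N : ℤ) - n).toNat) atTop atTop := by
        refine tendsto_atTop_atTop.2 (fun b => ⟨b + n.natAbs, fun a ha => by omega⟩)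
      refine Tendsto.const_mul _ ?_
      exact ((qp_tendsto q hq).comp t1).div (((qp_tendsto q hq).comp t2).mul
        ((qp_tendsto q hq).comp t3)) (mul_ne_zero (QP_ne q hq) (QP_ne q hq)))
    (Eventually.of_forall (fun N n => by
      unfold fN
      split_ifs with h
      · rw [norm_mul]
        exact mul_le_mul_of_nonneg_left (hb _ _ _) (norm_nonneg _)
      · rw [norm_zero]
        positivity))
  have hlim2 : Tendsto (fun N : ℕ => (∏ l ∈ Finset.range N, (1 - ζ * q ^ l)) *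
      ∏ l ∈ Finset.range N, (1 - ζ⁻¹ * q ^ (l + 1))) atTop
      (𝓝 ((PP q ζ * (1 - ζ)) * PP q ζ⁻¹)) := by
    refine Tendsto.mul ?_ (PP_tendsto q ζ⁻¹ hq)
    rw [← tendsto_add_atTop_iff_nat 1]
    have e : ∀ N : ℕ, ∏ l ∈ Finset.range (N + 1), (1 - ζ * q ^ l) =
        (∏ l ∈ Finset.range N, (1 - ζ * q ^ (l + 1))) * (1 - ζ) := by
      intro N
      rw [Finset.prod_range_succ']
      simp
    simp only [e]
    exact (PP_tendsto q ζ hq).mul_const _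
  have e1 : (fun N : ℕ => ∑' n : ℤ, fN q ζ N n) = fun N : ℕ =>
      (∏ l ∈ Finset.range N, (1 - ζ * q ^ l)) *
      ∏ l ∈ Finset.range N, (1 - ζ⁻¹ * q ^ (l + 1)) := by
    funext N
    rw [fN_tsum, fin_triple hQ q ζ hq0 hq hζ]
  rw [e1] at hlim
  have h3 := tendsto_nhds_unique hlim hlim2
  rw [tsum_mul_right] at h3
  have h4 : ∑' n : ℤ, TT q ζ n = QP q * (1 - ζ) * (Cp q ζ)⁻¹ := by
    rw [Cp_eq q ζ hq h1 h2, inv_inv]
    have h5 := QP_ne q hq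
    have h6 : QP q / (QP q * QP q) = (QP q)⁻¹ := by field_simp
    rw [h6] at h3
    have h7 : ∑' n : ℤ, TT q ζ n = (∑' n : ℤ, TT q ζ n) * (QP q)⁻¹ * QP q := by
      field_simp
    rw [h7, h3]
    ring
  have h8 := hT.hasSum
  rw [h4] at h8
  exact h8

end Pool.Agent.Helper21_UR.H97
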